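import Pool.Agent.FGRL.StA

/-!
# ALG: combination of two kinds of relations
-/

set_option autoImplicit false

namespace Pool.Agent.FGRL

open Pool.Agent.FGRF

namespace ALGaux

section ring

variable {R : Type*} [CommRing R]

theorem mul_mem (J : Ideal R) {x y a b : R} (hx : x ∈ Ideal.span {a} ⊔ J)
    (hy : y ∈ Ideal.span {b} ⊔ J) : x * y ∈ Ideal.span {a * b} ⊔ J := by
  obtain ⟨u, hu, v, hv, rfl⟩ := Submodule.mem_sup.1 hx
  obtain ⟨u', hu', v', hv', rfl⟩ := Submodule.mem_sup.1 hy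
  obtain ⟨r, rfl⟩ := Ideal.mem_span_singleton'.1 hu
  obtain ⟨r', rfl⟩ := Ideal.mem_span_singleton'.1 hu'
  have e : (r * a + v) * (r' * b + v') =
      (r * r') * (a * b) + ((r * a) * v' + v * (r' * b + v')) := by ring
  rw [e]
  refine Ideal.add_mem _ ?_ ?_
  · exact Ideal.mem_sup_left (Ideal.mul_mem_left _ _ (Ideal.mem_span_singleton_self _))
  · exact Ideal.mem_sup_right (J.add_mem (J.mul_mem_left _ hv') (J.mul_mem_right _ hv))

theorem prod_mem {κ : Type*} (J : Ideal R) (l : List κ) (a c : κ → R)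
    (h : ∀ k ∈ l, c k ∈ Ideal.span {a k} ⊔ J) :
    (l.map c).prod ∈ Ideal.span {(l.map a).prod} ⊔ J := by
  induction l with
  | nil =>
    simp only [List.map_nil, List.prod_nil]
    exact Ideal.mem_sup_left (Ideal.mem_span_singleton_self _)
  | cons x l ih =>
    simp only [List.map_cons, List.prod_cons]
    exact mul_mem J (h x List.mem_cons_self) (ih fun k hk => h k (List.mem_cons_of_mem _ hk))

theorem prod_flatMap {ι κ : Type*} (p : List ι) (q : List κ) (e : ι → κ → R) :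
    (p.flatMap fun i => q.map fun k => e i k).prod = (p.map fun i => (q.map (e i)).prod).prod := by
  induction p with
  | nil => rfl
  | cons x l ih =>
    rw [List.flatMap_cons, List.prod_append, ih, List.map_cons, List.prod_cons]

theorem comb {ι κ : Type*} (I : Ideal R) (p : List ι) (q : List κ) (a : ι → R) (b : κ → R)
    (e : ι → κ → R) (he : ∀ i k, e i k ∈ Ideal.span {a i} ⊔ Ideal.span {b k})
    (hp : (p.map a).prod ∈ I) (hq : (q.map b).prod ∈ I) :
    (p.flatMap fun i => q.map fun k => e i k).prod ∈ I := by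
  rw [prod_flatMap]
  have h1 : ∀ i ∈ p, (q.map (e i)).prod ∈ Ideal.span {a i} ⊔ I := by
    intro i _
    have h2 := prod_mem (Ideal.span {a i}) q b (e i) (fun k _ => by
      rw [sup_comm]
      exact he i k)
    rw [sup_comm] at h2
    have h3 : Ideal.span {(q.map b).prod} ≤ I := by
      rw [Ideal.span_singleton_le_iff_mem]
      exact hq
    exact (sup_le_sup_left h3 _) h2
  have h4 := prod_mem I p a (fun i => (q.map (e i)).prod) h1
  have h5 : Ideal.span {(p.map a).prod} ⊔ I ≤ I := by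
    refine sup_le ?_ le_rfl
    rw [Ideal.span_singleton_le_iff_mem]
    exact hp
  exact h5 h4

end ring

theorem mk_one {J : Ideal R3} {g : ℕ × ℤ × ℤ} (h : e3 g ∈ J) :
    Ideal.Quotient.mk J (AddMonoidAlgebra.single g (1 : ℤ)) = 1 := by
  rw [← sub_eq_zero, ← map_one (Ideal.Quotient.mk J), ← map_sub, Ideal.Quotient.eq_zero_iff_mem]
  exact h

theorem mem_of_mk {J : Ideal R3} {g : ℕ × ℤ × ℤ}
    (h : Ideal.Quotient.mk J (AddMonoidAlgebra.single g (1 : ℤ)) = 1) : e3 g ∈ J := by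
  rw [← Ideal.Quotient.eq_zero_iff_mem]
  unfold e3
  rw [map_sub, map_one, h, sub_self]

theorem mk_add {J : Ideal R3} {g g' : ℕ × ℤ × ℤ}
    (h : Ideal.Quotient.mk J (AddMonoidAlgebra.single g (1 : ℤ)) = 1)
    (h' : Ideal.Quotient.mk J (AddMonoidAlgebra.single g' (1 : ℤ)) = 1) :
    Ideal.Quotient.mk J (AddMonoidAlgebra.single (g + g') (1 : ℤ)) = 1 := by
  have e : (AddMonoidAlgebra.single (g + g') (1 : ℤ) : R3) =
      AddMonoidAlgebra.single g (1 : ℤ) * AddMonoidAlgebra.single g' (1 : ℤ) := by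
    rw [AddMonoidAlgebra.single_mul_single, one_mul]
  rw [e, map_mul, h, h', one_mul]

theorem mk_zero (J : Ideal R3) :
    Ideal.Quotient.mk J (AddMonoidAlgebra.single (0 : ℕ × ℤ × ℤ) (1 : ℤ)) = 1 := by
  rw [← AddMonoidAlgebra.one_def, map_one]

theorem mk_nsmul {J : Ideal R3} {g : ℕ × ℤ × ℤ}
    (h : Ideal.Quotient.mk J (AddMonoidAlgebra.single g (1 : ℤ)) = 1) (n : ℕ) :
    Ideal.Quotient.mk J (AddMonoidAlgebra.single (n • g) (1 : ℤ)) = 1 := by
  induction n with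
  | zero => rw [zero_smul]; exact mk_zero J
  | succ n ih => rw [add_smul, one_smul]; exact mk_add ih h

theorem mk_neg {J : Ideal R3} {u v : ℤ}
    (h : Ideal.Quotient.mk J (AddMonoidAlgebra.single ((0, u, v) : ℕ × ℤ × ℤ) (1 : ℤ)) = 1) :
    Ideal.Quotient.mk J (AddMonoidAlgebra.single ((0, -u, -v) : ℕ × ℤ × ℤ) (1 : ℤ)) = 1 := by
  have e : (AddMonoidAlgebra.single ((0, -u, -v) : ℕ × ℤ × ℤ) (1 : ℤ) : R3) *
      AddMonoidAlgebra.single ((0, u, v) : ℕ × ℤ × ℤ) (1 : ℤ) = 1 := by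
    rw [AddMonoidAlgebra.single_mul_single, one_mul, AddMonoidAlgebra.one_def]
    congr 1
    ext
    · rfl
    · show -u + u = 0
      ring
    · show -v + v = 0
      ring
  have e2 := congrArg (Ideal.Quotient.mk J) e
  rwa [map_mul, h, mul_one, map_one] at e2

theorem mk_zsmul {J : Ideal R3} {u v : ℤ}
    (h : Ideal.Quotient.mk J (AddMonoidAlgebra.single ((0, u, v) : ℕ × ℤ × ℤ) (1 : ℤ)) = 1)
    (k : ℤ) :
    Ideal.Quotient.mk J (AddMonoidAlgebra.single ((0, k * u, k * v) : ℕ × ℤ × ℤ) (1 : ℤ)) = 1 := by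
  have hn : ∀ n : ℕ, Ideal.Quotient.mk J
      (AddMonoidAlgebra.single ((0, (n : ℤ) * u, (n : ℤ) * v) : ℕ × ℤ × ℤ) (1 : ℤ)) = 1 := by
    intro n
    have h1 := mk_nsmul h n
    have e : n • ((0, u, v) : ℕ × ℤ × ℤ) = (0, (n : ℤ) * u, (n : ℤ) * v) := by
      ext
      · show n • (0 : ℕ) = 0
        simp
      · show n • u = (n : ℤ) * u
        rw [nsmul_eq_mul]
      · show n • v = (n : ℤ) * v
        rw [nsmul_eq_mul]
    rwa [e] at h1
  obtain ⟨n, rfl | rfl⟩ := Int.eq_nat_or_neg k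
  · exact hn n
  · have h1 := mk_neg (hn n)
    have e : ((0, -((n : ℤ) * u), -((n : ℤ) * v)) : ℕ × ℤ × ℤ) =
        (0, -(n : ℤ) * u, -(n : ℤ) * v) := by
      ext
      · rfl
      · show -((n : ℤ) * u) = -(n : ℤ) * u
        ring
      · show -((n : ℤ) * v) = -(n : ℤ) * v
        ring
    rwa [e] at h1

/-- The relation with any multiple of the second exponent. -/
theorem gen (x y : ℕ × ℤ) (k : ℤ) :
    e3 (x.1 * y.1, (y.1 : ℤ) * x.2 + k * ((y.1 : ℤ) + y.2), k * y.2) ∈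
      Ideal.span {e3 (x.1, x.2, 0)} ⊔ Ideal.span {e3 (0, (y.1 : ℤ) + y.2, y.2)} := by
  set J : Ideal R3 := Ideal.span {e3 (x.1, x.2, 0)} ⊔ Ideal.span {e3 (0, (y.1 : ℤ) + y.2, y.2)}
  have h1 : Ideal.Quotient.mk J (AddMonoidAlgebra.single ((x.1, x.2, 0) : ℕ × ℤ × ℤ) (1 : ℤ)) = 1 :=
    mk_one (Ideal.mem_sup_left (Ideal.mem_span_singleton_self _))
  have h2 : Ideal.Quotient.mk J
      (AddMonoidAlgebra.single ((0, (y.1 : ℤ) + y.2, y.2) : ℕ × ℤ × ℤ) (1 : ℤ)) = 1 :=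
    mk_one (Ideal.mem_sup_right (Ideal.mem_span_singleton_self _))
  have h3 := mk_add (mk_nsmul h1 y.1) (mk_zsmul h2 k)
  have e : y.1 • ((x.1, x.2, 0) : ℕ × ℤ × ℤ) + (0, k * ((y.1 : ℤ) + y.2), k * y.2) =
      (x.1 * y.1, (y.1 : ℤ) * x.2 + k * ((y.1 : ℤ) + y.2), k * y.2) := by
    ext
    · show y.1 • x.1 + 0 = x.1 * y.1
      rw [smul_eq_mul]
      ring
    · show y.1 • x.2 + k * ((y.1 : ℤ) + y.2) = (y.1 : ℤ) * x.2 + k * ((y.1 : ℤ) + y.2)
      rw [nsmul_eq_mul]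
    · show y.1 • (0 : ℤ) + k * y.2 = k * y.2
      rw [smul_zero, zero_add]
  rw [e] at h3
  exact mem_of_mk h3

end ALGaux

open ALGaux in
theorem t_ALG : Stmt_ALG := by
  intro I p q hp hq
  constructor
  · refine comb I p q (fun x => e3 (x.1, x.2, 0)) (fun x => e3 (0, (x.1 : ℤ) + x.2, x.2))
      (fun e x => e3 (e.1 * x.1, -(e.2 * x.2), -(e.2 * x.2))) (fun e x => ?_) hp hq
    have h := gen e x (-e.2)
    have e1 : (x.1 : ℤ) * e.2 + -e.2 * ((x.1 : ℤ) + x.2) = -(e.2 * x.2) := by ring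
    have e2 : -e.2 * x.2 = -(e.2 * x.2) := by ring
    rw [e1, e2] at h
    exact h
  · refine comb I p q (fun x => e3 (x.1, x.2, 0)) (fun x => e3 (0, (x.1 : ℤ) + x.2, x.2))
      (fun e x => e3 (e.1 * x.1, -((e.1 * x.1 : ℕ) : ℤ) - x.2 * (e.1 + e.2),
        -(x.2 * (e.1 + e.2)))) (fun e x => ?_) hp hq
    have h := gen e x (-((e.1 : ℤ) + e.2))
    have e1 : (x.1 : ℤ) * e.2 + -((e.1 : ℤ) + e.2) * ((x.1 : ℤ) + x.2) =
        -((e.1 * x.1 : ℕ) : ℤ) - x.2 * (e.1 + e.2) := by push_cast; ring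
    have e2 : -((e.1 : ℤ) + e.2) * x.2 = -(x.2 * (e.1 + e.2)) := by ring
    rw [e1, e2] at h
    exact h

end Pool.Agent.FGRL
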