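import Mathlib
import Pool.Agent.Lib_helper35.FGRF.Defs

/-!
# The laws `L_n`
-/

set_option autoImplicit false

namespace Pool.Agent.FGRL

open Pool.Agent.FGRF
open scoped commutatorElement

/-- For `x = (a, b)` and a function `w` the function
`y ↦ t ^ b * w (t ^ a * y * t ^ (-a)) * t ^ (-b) * (w y)⁻¹`. -/
def dop {G : Type*} [Group G] (t : G) (x : ℕ × ℤ) (w : G → G) : G → G := fun y =>
  t ^ x.2 * w (t ^ x.1 * y * (t ^ x.1)⁻¹) * (t ^ x.2)⁻¹ * (w y)⁻¹

/-- All pairs `(a, b)` with `1 ≤ a ≤ n` and `-n ≤ b ≤ n`. -/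
def pairsL (n : ℕ) : List (ℕ × ℤ) :=
  (List.range n).flatMap fun a =>
    (List.range (2 * n + 1)).map fun b : ℕ => (a + 1, (b : ℤ) - (n : ℤ))

/-- The value of the word `L_n` in the three variables `t, y, z`. -/
def lawL {G : Type*} [Group G] (n : ℕ) (t y z : G) : G :=
  (fun w => (pairsL n).foldr (dop t) w)^[n] (fun y => ⁅eng n t y, eng n t z⁆) y

end Pool.Agent.FGRL
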