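import Mathlib
import Pool.Agent.FGRL.Defs

/-!
# Module statements for the laws `L_n`
-/

set_option autoImplicit false

namespace Pool.Agent.FGRL

open Pool.Agent.FGRF
open scoped commutatorElement

universe u v

/-- The general reason why a word `L_n` is not a law.

Proof. Say that `Inv w i₀` holds for `w : G → G` and `i₀ : ℤ` if `w (t ^ i * y₀ * (t ^ i)⁻¹) = 1`
for all `i < i₀` and `w (t ^ i₀ * y₀ * (t ^ i₀)⁻¹) ≠ 1`. If `1 ≤ x.1` then
`Inv w i₀ → Inv (dop t x w) (i₀ - x.1)`: by definition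
`dop t x w (t ^ i * y₀ * (t ^ i)⁻¹) = t ^ b * w (t ^ (i + a) * y₀ * (t ^ (i + a))⁻¹) * (t ^ b)⁻¹ *
(w (t ^ i * y₀ * (t ^ i)⁻¹))⁻¹` (`a = x.1`, `b = x.2`), and for `i < i₀ - a` both values of `w` are
`1`, while for `i = i₀ - a < i₀` the first one is not `1` and the second one is `1`. By induction on
a list `l` all whose first entries are at least `1`: `Inv w i₀ → ∃ i₁, Inv (l.foldr (dop t) w) i₁`,
and by induction on the number of rounds `∃ i₁, Inv ((fun w => (pairsL n).foldr (dop t) w)^[m] w) i₁`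
(generalise over `w`, `i₀`). Take `m = n`, `w = fun y => ⁅eng n t y, eng n t z⁆` and
`y := t ^ i₁ * y₀ * (t ^ i₁)⁻¹`. -/
def Stmt_INV : Prop := ∀ (G : Type) [Group G] (t y₀ z : G) (n : ℕ) (i₀ : ℤ),
  (∀ i : ℤ, i < i₀ → ⁅eng n t (t ^ i * y₀ * (t ^ i)⁻¹), eng n t z⁆ = 1) →
  ⁅eng n t (t ^ i₀ * y₀ * (t ^ i₀)⁻¹), eng n t z⁆ ≠ 1 →
  ∃ y : G, lawL n t y z ≠ 1

/-- The endomorphism version of `dop`. -/
def dsg {G : Type*} [Group G] (σ : G →* G) (t : G) (x : ℕ × ℤ) (w : G) : G :=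
  t ^ x.2 * (σ : G → G)^[x.1] w * (t ^ x.2)⁻¹ * w⁻¹

/-- The value `L_n(t, y, z)` through an endomorphism.

Proof. Call `w : G → G` natural if `w (σ v) = σ (w v)` for all `v : G`. Here `σ t = t`,
`σ z = z`, `σ y = t * y * t⁻¹`. (1) `v ↦ ⁅eng n t v, eng n t z⁆` is natural
(`eng n` commutes with homomorphisms, induction on the iterations). (2) If `w` is natural so is
`dop t x w`, and then so are `l.foldr (dop t) w` and all iterates. (3) If `w` is natural then
`dop t x w y = dsg σ t x (w y)`, because `t ^ a * y * (t ^ a)⁻¹ = σ^[a] y` (induction on `a`) and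
so `w (t ^ a * y * (t ^ a)⁻¹) = σ^[a] (w y)`. (4) By induction on `l`, for natural `w`,
`l.foldr (dop t) w y = l.foldr (dsg σ t) (w y)`, and by induction on `m`
`((fun w => l.foldr (dop t) w)^[m] w) y = (fun g => l.foldr (dsg σ t) g)^[m] (w y)`
(use `Function.iterate_succ_apply'` on both sides). Take `l = pairsL n`, `m = n`. -/
def Stmt_NAT : Prop := ∀ (G : Type) [Group G] (σ : G →* G) (t y z : G), σ t = t → σ z = z →
  σ y = t * y * t⁻¹ → ∀ n : ℕ,
  lawL n t y z = (fun g => (pairsL n).foldr (dsg σ t) g)^[n] ⁅eng n t y, eng n t z⁆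

/-- `lawL` commutes with homomorphisms. -/
def Stmt_HOM : Prop := ∀ (G : Type) [Group G] (H : Type u) [Group H] (φ : G →* H) (t y z : G)
  (n : ℕ), φ (lawL n t y z) = lawL n (φ t) (φ y) (φ z)

/-- The ring `ℤ[ℕ × ℤ × ℤ]`. -/
abbrev R3 := AddMonoidAlgebra ℤ (ℕ × ℤ × ℤ)

/-- `x_1^a x_2^b x_3^c - 1` -/
noncomputable def e3 (g : ℕ × ℤ × ℤ) : R3 := AddMonoidAlgebra.single g 1 - 1

/-- Combination of two kinds of relations.

Proof. (A) For an ideal `I` of a commutative ring, lists `p`, `q` and a function `e` with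
`e i k ∈ Ideal.span {a i} ⊔ Ideal.span {b k}`: if `(p.map a).prod ∈ I` and `(q.map b).prod ∈ I` then
`(p.flatMap fun i => q.map fun k => e i k).prod ∈ I`. Indeed for fixed `i`, by induction on `q`,
`(q.map (e i)).prod ∈ Ideal.span {a i} ⊔ Ideal.span {(q.map b).prod}`
(`(r a + s b) (r' a + s' b') = (…) a + s s' (b b')`), hence it lies in `Ideal.span {a i} ⊔ I`;
then by induction on `p` the product of these elements lies in
`Ideal.span {(p.map a).prod} ⊔ I = I`.
(B) Put `g₁ = (α, β, 0)` and `g₂ = (0, a + b, b)`. In the quotient of `R3` by the ideal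
`Ideal.span {e3 g₁} ⊔ Ideal.span {e3 g₂}` the classes of `single g₁ 1` and of `single g₂ 1` are `1`,
so the class of `single (a • g₁) 1 = (single g₁ 1) ^ a` is `1` and the class of
`single (0, k * (a + b), k * b) 1` is `1` for all `k : ℤ` (see `quot_zsmul` in
`Pool.Agent.Lib_helper35.FGRF.PairAlg`). Multiplying, the class of
`single (a * α, a * β + k * (a + b), k * b) 1` is `1`. For `k = -β` this is
`single (α * a, -(β * b), -(β * b)) 1`, and for `k = -(α + β)` it is
`single (α * a, -(α * a) - b * (α + β), -(b * (α + β))) 1`. So these `e3`'s lie in the ideal.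
Now apply (A) with `a i = e3 (i.1, i.2, 0)`, `b k = e3 (0, k.1 + k.2, k.2)`. -/
def Stmt_ALG : Prop := ∀ (I : Ideal R3) (p q : List (ℕ × ℤ)),
  (p.map fun x => e3 (x.1, x.2, 0)).prod ∈ I →
  (q.map fun x => e3 (0, (x.1 : ℤ) + x.2, x.2)).prod ∈ I →
  ((p.flatMap fun e => q.map fun x => e3 (e.1 * x.1, -(e.2 * x.2), -(e.2 * x.2))).prod ∈ I ∧
   (p.flatMap fun e => q.map fun x =>
      e3 (e.1 * x.1, -((e.1 * x.1 : ℕ) : ℤ) - x.2 * (e.1 + e.2), -(x.2 * (e.1 + e.2)))).prod ∈ I)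

end Pool.Agent.FGRL
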