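import Mathlib
import Pool.Agent.FGRL.StA
import Pool.Agent.Lib_helper35.FGRF.PairAlg

/-!
# Pairings with three endomorphisms
-/

set_option autoImplicit false

namespace Pool.Agent.FGRL

open Pool.Agent.FGRF Pool.Agent.FGRF.Interface

universe u v w x

/-- the ring `ℤ[ℕ × ℤ]` -/
abbrev Rn := AddMonoidAlgebra ℤ (ℕ × ℤ)

/-- `S^a v^b - 1` -/
noncomputable def e2 (g : ℕ × ℤ) : Rn := AddMonoidAlgebra.single g 1 - 1

/-- three endomorphisms which commute with `t` -/
structure Dat {Γ : Type u} [Group Γ] (t : Γ) (A : Type v) [AddCommGroup A]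
    [DistribMulAction Γ A] where
  S : AddMonoid.End A
  e : AddMonoid.End A
  h : AddMonoid.End A
  St : ∀ (k : ℤ) (m : A), S (t ^ k • m) = t ^ k • S m
  et : ∀ (k : ℤ) (m : A), e (t ^ k • m) = t ^ k • e m
  ht : ∀ (k : ℤ) (m : A), h (t ^ k • m) = t ^ k • h m
  eS : ∀ m : A, e (S m) = S (e m)
  hS : ∀ m : A, h (S m) = S (h m)

namespace Dat

variable {Γ : Type u} [Group Γ] {t : Γ} {A : Type v} [AddCommGroup A] [DistribMulAction Γ A]
  (D : Dat t A)

theorem comm (k : ℤ) : Commute D.S (DistribMulAction.toAddMonoidEnd Γ A (t ^ k)) := by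
  ext m
  exact D.St k m

/-- the action of monomials -/
noncomputable def mon : Multiplicative (ℕ × ℤ) →* AddMonoid.End A where
  toFun x := D.S ^ x.toAdd.1 * DistribMulAction.toAddMonoidEnd Γ A (t ^ x.toAdd.2)
  map_one' := by
    show D.S ^ 0 * DistribMulAction.toAddMonoidEnd Γ A (t ^ (0 : ℤ)) = 1
    rw [pow_zero, zpow_zero, map_one, one_mul]
  map_mul' x y := by
    show D.S ^ (x.toAdd.1 + y.toAdd.1) * DistribMulAction.toAddMonoidEnd Γ A
      (t ^ (x.toAdd.2 + y.toAdd.2)) = _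
    rw [pow_add, zpow_add, map_mul, mul_assoc, mul_assoc]
    congr 1
    rw [← mul_assoc, ← mul_assoc, ((D.comm x.toAdd.2).pow_left y.toAdd.1).eq]

/-- the action of `ℤ[ℕ × ℤ]` -/
noncomputable def act : Rn →+* AddMonoid.End A :=
  (AddMonoidAlgebra.lift ℤ (AddMonoid.End A) (ℕ × ℤ) D.mon).toRingHom

theorem act_single (g : ℕ × ℤ) (r : ℤ) (m : A) :
    D.act (AddMonoidAlgebra.single g r) m = r • (D.S ^ g.1) (t ^ g.2 • m) := by
  have h : D.act (AddMonoidAlgebra.single g r) = r • D.mon (Multiplicative.ofAdd g) :=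
    AddMonoidAlgebra.lift_single _ _ _
  rw [h]
  rfl

theorem act_mul (f g : Rn) (m : A) : D.act (f * g) m = D.act f (D.act g m) := by
  rw [map_mul]
  rfl

theorem act_e2 (g : ℕ × ℤ) (m : A) : D.act (e2 g) m = (D.S ^ g.1) (t ^ g.2 • m) - m := by
  have h : D.act (e2 g) m = D.act (AddMonoidAlgebra.single g 1) m - m := by
    rw [e2, map_sub, map_one]
    rfl
  rw [h, act_single, one_smul]

/-- `S` and `t` act in the same way, pure in the first variable -/
def isX (m : A) : Prop := D.S m = t • m ∧ D.e m = 0 ∧ D.h m = m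

/-- pure in the second variable -/
def isY (m : A) : Prop := D.S m = m ∧ D.e m = m ∧ D.h m = 0

/-- mixed -/
def isM (m : A) : Prop := D.e m = 0 ∧ D.h m = 0

variable {D}

theorem isX.S_pow {m : A} (h : D.isX m) (a : ℕ) (k : ℤ) :
    (D.S ^ a) (t ^ k • m) = t ^ (k + a) • m := by
  induction a with
  | zero => simp
  | succ a ih =>
    rw [pow_succ']
    show D.S ((D.S ^ a) (t ^ k • m)) = _
    rw [ih, D.St, h.1, Nat.cast_succ, ← add_assoc, zpow_add_one, mul_smul]

theorem isY.S_pow {m : A} (h : D.isY m) (a : ℕ) (k : ℤ) :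
    (D.S ^ a) (t ^ k • m) = t ^ k • m := by
  induction a with
  | zero => simp
  | succ a ih =>
    rw [pow_succ']
    show D.S ((D.S ^ a) (t ^ k • m)) = _
    rw [ih, D.St, h.1]

theorem isM.smul {m : A} (h : D.isM m) (k : ℤ) : D.isM (t ^ k • m) := by
  refine ⟨?_, ?_⟩
  · rw [D.et, h.1, smul_zero]
  · rw [D.ht, h.2, smul_zero]

theorem isM.S_pow {m : A} (h : D.isM m) (a : ℕ) : D.isM ((D.S ^ a) m) := by
  induction a with
  | zero => simpa using h
  | succ a ih =>
    rw [pow_succ']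
    refine ⟨?_, ?_⟩
    · show D.e (D.S ((D.S ^ a) m)) = 0
      rw [D.eS, ih.1, map_zero]
    · show D.h (D.S ((D.S ^ a) m)) = 0
      rw [D.hS, ih.2, map_zero]

theorem isX.add {m m' : A} (h : D.isX m) (h' : D.isX m') : D.isX (m + m') := by
  refine ⟨?_, ?_, ?_⟩
  · rw [map_add, h.1, h'.1, smul_add]
  · rw [map_add, h.2.1, h'.2.1, add_zero]
  · rw [map_add, h.2.2, h'.2.2]

theorem isY.add {m m' : A} (h : D.isY m) (h' : D.isY m') : D.isY (m + m') := by
  refine ⟨?_, ?_, ?_⟩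
  · rw [map_add, h.1, h'.1]
  · rw [map_add, h.2.1, h'.2.1]
  · rw [map_add, h.2.2, h'.2.2, add_zero]

theorem isM.add {m m' : A} (h : D.isM m) (h' : D.isM m') : D.isM (m + m') := by
  refine ⟨?_, ?_⟩
  · rw [map_add, h.1, h'.1, add_zero]
  · rw [map_add, h.2, h'.2, add_zero]

theorem isX.neg {m : A} (h : D.isX m) : D.isX (-m) := by
  refine ⟨?_, ?_, ?_⟩
  · rw [map_neg, h.1, smul_neg]
  · rw [map_neg, h.2.1, neg_zero]
  · rw [map_neg, h.2.2]

theorem isY.neg {m : A} (h : D.isY m) : D.isY (-m) := by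
  refine ⟨?_, ?_, ?_⟩
  · rw [map_neg, h.1]
  · rw [map_neg, h.2.1]
  · rw [map_neg, h.2.2, neg_zero]

theorem isM.neg {m : A} (h : D.isM m) : D.isM (-m) := by
  refine ⟨?_, ?_⟩
  · rw [map_neg, h.1, neg_zero]
  · rw [map_neg, h.2, neg_zero]

theorem isX.zero : D.isX 0 := by
  refine ⟨?_, ?_, ?_⟩ <;> simp

theorem isY.zero : D.isY 0 := by
  refine ⟨?_, ?_, ?_⟩ <;> simp

theorem isM.zero : D.isM 0 := by
  refine ⟨?_, ?_⟩ <;> simp

variable (D)

/-- decomposition in pure and mixed parts -/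
def Dec : Prop := ∀ m : A, ∃ x y z : A, D.isX x ∧ D.isY y ∧ D.isM z ∧ m = x + y + z

/-- the mixed part is killed by the product over the list -/
def Kill (l : List (ℕ × ℤ)) : Prop := ∀ m : A, D.isM m → D.act (l.map e2).prod m = 0

end Dat

/-- the next list -/
def nxt (l p : List (ℕ × ℤ)) : List (ℕ × ℤ) :=
  l ++ (l.map (fun x => (x.1, -(x.1 : ℤ) - x.2)) ++
  ((p.flatMap fun e => l.map fun x => (e.1 * x.1, -(e.2 * x.2))) ++
  (p.flatMap fun e => l.map fun x =>
    (e.1 * x.1, -((e.1 * x.1 : ℕ) : ℤ) - x.2 * (e.1 + e.2)))))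

section opl

variable {Γ : Type u} [Group Γ] {t : Γ} {C : Type x} [AddCommGroup C] [DistribMulAction Γ C]

/-- transport of the action to a ring -/
theorem act_eval (D : Dat t C) {M : Type*} [AddCommMonoid M] (θ : ℕ × ℤ →+ M)
    (φ : AddMonoidAlgebra ℤ M →+ C)
    (h : ∀ (g : ℕ × ℤ) (f : AddMonoidAlgebra ℤ M),
      (D.S ^ g.1) (t ^ g.2 • φ f) = φ (AddMonoidAlgebra.single (θ g) 1 * f))
    (g : Rn) (f : AddMonoidAlgebra ℤ M) :
    D.act g (φ f) = φ (AddMonoidAlgebra.mapDomainRingHom ℤ θ g * f) := by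
  induction g using AddMonoidAlgebra.induction_linear with
  | zero => simp
  | add x y hx hy =>
    rw [map_add, map_add, add_mul, map_add, ← hx, ← hy]
    rfl
  | single g r =>
    rw [D.act_single, h, AddMonoidAlgebra.mapDomainRingHom_apply,
      AddMonoidAlgebra.mapDomain_single, ← map_zsmul]
    congr 1
    rw [← smul_mul_assoc, AddMonoidAlgebra.smul_single, smul_eq_mul, mul_one]

theorem map_e2 {M : Type*} [AddCommMonoid M] (θ : ℕ × ℤ →+ M) (g : ℕ × ℤ) :
    AddMonoidAlgebra.mapDomainRingHom ℤ θ (e2 g) = AddMonoidAlgebra.single (θ g) 1 - 1 := by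
  rw [e2, map_sub, map_one, AddMonoidAlgebra.mapDomainRingHom_apply,
    AddMonoidAlgebra.mapDomain_single]

theorem map_prod_e2 {M : Type*} [AddCommMonoid M] (θ : ℕ × ℤ →+ M) (l : List (ℕ × ℤ)) :
    AddMonoidAlgebra.mapDomainRingHom ℤ θ (l.map e2).prod =
      (l.map fun g => (AddMonoidAlgebra.single (θ g) 1 - 1 : AddMonoidAlgebra ℤ M)).prod := by
  rw [map_list_prod, List.map_map]
  congr 1
  exact List.map_congr_left fun g _ => map_e2 θ g

end opl

section step

variable {Γ : Type u} {D : Type v} {B : Type w} {C : Type x} [Group Γ] [AddCommGroup D]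
    [AddCommGroup B] [AddCommGroup C] [DistribMulAction Γ D] [DistribMulAction Γ B]
    [DistribMulAction Γ C] {t : Γ} (DD : Dat t D) (DB : Dat t B) (DC : Dat t C)
    (P : PairD Γ D B C)

/-- the values `β (S^i t^j d, t^k b)` -/
noncomputable def ev3 (d : D) (b : B) : R3 →+ C :=
  monEval fun g => P.β ((DD.S ^ g.1) (t ^ g.2.1 • d)) (t ^ g.2.2 • b)

theorem ev3_single (d : D) (b : B) (i : ℕ) (j k r : ℤ) :
    ev3 DD P d b (AddMonoidAlgebra.single (i, j, k) r) =
      r • P.β ((DD.S ^ i) (t ^ j • d)) (t ^ k • b) :=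
  monEval_single _ _ _

theorem S_pow_smul {A : Type*} [AddCommGroup A] [DistribMulAction Γ A] (D : Dat t A) (a : ℕ)
    (k : ℤ) (m : A) : (D.S ^ a) (t ^ k • m) = t ^ k • (D.S ^ a) m := by
  induction a with
  | zero => simp
  | succ a ih =>
    rw [pow_succ']
    show D.S ((D.S ^ a) (t ^ k • m)) = t ^ k • D.S ((D.S ^ a) m)
    rw [ih, D.St]

theorem ev3_mul (d : D) (b : B) (i : ℕ) (j k r : ℤ) (f : R3) :
    ev3 DD P d b (AddMonoidAlgebra.single (i, j, k) r * f) =
      r • ev3 DD P ((DD.S ^ i) (t ^ j • d)) (t ^ k • b) f := by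
  induction f using AddMonoidAlgebra.induction_linear with
  | zero => simp
  | add x y hx hy => rw [mul_add, map_add, hx, hy, map_add, smul_add]
  | single g s =>
    obtain ⟨i', j', k'⟩ := g
    rw [AddMonoidAlgebra.single_mul_single, Prod.mk_add_mk, Prod.mk_add_mk, ev3_single,
      ev3_single, smul_smul]
    congr 2
    · rw [S_pow_smul, S_pow_smul DD i, S_pow_smul, S_pow_smul DD i' j,
        smul_smul, ← zpow_add, add_comm i i', pow_add, add_comm j j']
      rfl
    · rw [smul_smul, ← zpow_add, add_comm]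

/-- the ideal of relations between mixed elements and all elements of `B` -/
noncomputable def I3 : Ideal R3 where
  carrier := {f | ∀ d : D, DD.isM d → ∀ b : B, ev3 DD P d b f = 0}
  add_mem' := by
    intro f g hf hg d hd b
    rw [map_add, hf d hd b, hg d hd b, add_zero]
  zero_mem' := by
    intro d _ b
    rw [map_zero]
  smul_mem' := by
    intro c f hf d hd b
    show ev3 DD P d b (c * f) = 0
    induction c using AddMonoidAlgebra.induction_linear with
    | zero => rw [zero_mul, map_zero]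
    | add x y hx hy => rw [add_mul, map_add, hx, hy, add_zero]
    | single g r =>
      obtain ⟨i, j, k⟩ := g
      rw [ev3_mul, hf _ ((hd.smul j).S_pow i), smul_zero]

theorem mem_I3 {f : R3} : f ∈ I3 DD P ↔ ∀ d : D, DD.isM d → ∀ b : B, ev3 DD P d b f = 0 := Iff.rfl

/-- `β (f d, b)` -/
theorem ev3_left (d : D) (b : B) (f : Rn) :
    ev3 DD P d b (AddMonoidAlgebra.mapDomainRingHom ℤ
      ((AddMonoidHom.fst ℕ ℤ).prod ((AddMonoidHom.snd ℕ ℤ).prod (0 : ℕ × ℤ →+ ℤ))) f) =
      P.β (DD.act f d) b := by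
  induction f using AddMonoidAlgebra.induction_linear with
  | zero => simp
  | add x y hx hy =>
    have h : DD.act (x + y) d = DD.act x d + DD.act y d := by
      rw [map_add]
      rfl
    rw [map_add, map_add, hx, hy, h, map_add, AddMonoidHom.add_apply]
  | single g r =>
    obtain ⟨i, j⟩ := g
    rw [AddMonoidAlgebra.mapDomainRingHom_apply, AddMonoidAlgebra.mapDomain_single, DD.act_single]
    show ev3 DD P d b (AddMonoidAlgebra.single (i, j, 0) r) = _
    rw [ev3_single, zpow_zero, one_smul, map_zsmul, AddMonoidHom.zsmul_apply]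

/-- relations in `s`, `u` -/
theorem ev3_right (d : D) (b : B) (f : R2) :
    ev3 DD P d b (AddMonoidAlgebra.mapDomainRingHom ℤ
      ((0 : ℤ × ℤ →+ ℕ).prod ((AddMonoidHom.fst ℤ ℤ).prod (AddMonoidHom.snd ℤ ℤ))) f) =
      evT P t d b f := by
  induction f using AddMonoidAlgebra.induction_linear with
  | zero => simp
  | add x y hx hy => rw [map_add, map_add, hx, hy, map_add]
  | single g r =>
    obtain ⟨i, j⟩ := g
    rw [AddMonoidAlgebra.mapDomainRingHom_apply, AddMonoidAlgebra.mapDomain_single, evT_single]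
    show ev3 DD P d b (AddMonoidAlgebra.single (0, i, j) r) = _
    rw [ev3_single, pow_zero]
    rfl

/-- the four kinds of relations -/
theorem e3_left (p : List (ℕ × ℤ)) (hk : DD.Kill p) :
    (p.map fun x => e3 (x.1, x.2, 0)).prod ∈ I3 DD P := by
  intro d hd b
  have h := ev3_left DD P d b (p.map e2).prod
  rw [map_prod_e2, hk d hd, map_zero, AddMonoidHom.zero_apply] at h
  exact h

theorem e3_right (l : List (ℕ × ℤ)) {W : Ideal R2} (hW : (l.map gel).prod ∈ W)
    (hrel : ∀ f ∈ W, ∀ (d : D) (b : B), evT P t d b f = 0) :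
    (l.map fun x => e3 (0, (x.1 : ℤ) + x.2, x.2)).prod ∈ I3 DD P := by
  intro d _ b
  have h := ev3_right DD P d b (l.map gel).prod
  rw [hrel _ hW, map_list_prod, List.map_map] at h
  rw [← h]
  congr 2
  apply List.map_congr_left
  intro g _
  obtain ⟨i, j⟩ := g
  show e3 (0, (i : ℤ) + j, j) = AddMonoidAlgebra.mapDomainRingHom ℤ _ (gel (i, j))
  rw [gel, map_sub, map_one, AddMonoidAlgebra.mapDomainRingHom_apply,
    AddMonoidAlgebra.mapDomain_single]
  rfl

/-- pairings of two pure elements -/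
theorem act_evT_X (hS : ∀ d b, DC.S (P.β d b) = P.β (DD.S d) (DB.S b)) {d : D} {b : B}
    (hd : DD.isX d) (hb : DB.isY b) (g : Rn) :
    DC.act g (P.β d b) = evT P t d b (AddMonoidAlgebra.mapDomainRingHom ℤ
      (((Nat.castAddMonoidHom ℤ).comp (AddMonoidHom.fst ℕ ℤ) + AddMonoidHom.snd ℕ ℤ).prod
        (AddMonoidHom.snd ℕ ℤ)) g) := by
  have hSp : ∀ (a : ℕ) d b, (DC.S ^ a) (P.β d b) = P.β ((DD.S ^ a) d) ((DB.S ^ a) b) := by
    intro a
    induction a with
    | zero => intro d b; simp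
    | succ a ih =>
      intro d b
      rw [pow_succ', pow_succ', pow_succ']
      show DC.S ((DC.S ^ a) (P.β d b)) = P.β (DD.S ((DD.S ^ a) d)) (DB.S ((DB.S ^ a) b))
      rw [ih, hS]
  have h := act_eval DC (((Nat.castAddMonoidHom ℤ).comp (AddMonoidHom.fst ℕ ℤ) +
    AddMonoidHom.snd ℕ ℤ).prod (AddMonoidHom.snd ℕ ℤ)) (evT P t d b) ?_ g 1
  · rw [mul_one, evT_one] at h
    exact h
  · intro g f
    obtain ⟨a, k⟩ := g
    show (DC.S ^ a) (t ^ k • evT P t d b f) =
      evT P t d b (AddMonoidAlgebra.single ((a : ℤ) + k, k) 1 * f)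
    induction f using AddMonoidAlgebra.induction_linear with
    | zero => simp
    | add x y hx hy => rw [mul_add, map_add, smul_add, map_add, hx, hy, map_add]
    | single ij r =>
      obtain ⟨i, j⟩ := ij
      rw [AddMonoidAlgebra.single_mul_single, Prod.mk_add_mk, evT_single, evT_single, one_mul,
        act_zsmul, P.equi, map_zsmul, hSp, smul_smul, smul_smul, ← zpow_add, ← zpow_add,
        hd.S_pow, hb.S_pow]
      congr 4
      ring_nf

theorem act_evT_Y (hS : ∀ d b, DC.S (P.β d b) = P.β (DD.S d) (DB.S b)) {d : D} {b : B}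
    (hd : DD.isY d) (hb : DB.isX b) (g : Rn) :
    DC.act g (P.β d b) = evT P t d b (AddMonoidAlgebra.mapDomainRingHom ℤ
      ((AddMonoidHom.snd ℕ ℤ).prod
        ((Nat.castAddMonoidHom ℤ).comp (AddMonoidHom.fst ℕ ℤ) + AddMonoidHom.snd ℕ ℤ)) g) := by
  have hSp : ∀ (a : ℕ) d b, (DC.S ^ a) (P.β d b) = P.β ((DD.S ^ a) d) ((DB.S ^ a) b) := by
    intro a
    induction a with
    | zero => intro d b; simp
    | succ a ih =>
      intro d b
      rw [pow_succ', pow_succ', pow_succ']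
      show DC.S ((DC.S ^ a) (P.β d b)) = P.β (DD.S ((DD.S ^ a) d)) (DB.S ((DB.S ^ a) b))
      rw [ih, hS]
  have h := act_eval DC ((AddMonoidHom.snd ℕ ℤ).prod
    ((Nat.castAddMonoidHom ℤ).comp (AddMonoidHom.fst ℕ ℤ) + AddMonoidHom.snd ℕ ℤ))
    (evT P t d b) ?_ g 1
  · rw [mul_one, evT_one] at h
    exact h
  · intro g f
    obtain ⟨a, k⟩ := g
    show (DC.S ^ a) (t ^ k • evT P t d b f) =
      evT P t d b (AddMonoidAlgebra.single (k, (a : ℤ) + k) 1 * f)
    induction f using AddMonoidAlgebra.induction_linear with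
    | zero => simp
    | add x y hx hy => rw [mul_add, map_add, smul_add, map_add, hx, hy, map_add]
    | single ij r =>
      obtain ⟨i, j⟩ := ij
      rw [AddMonoidAlgebra.single_mul_single, Prod.mk_add_mk, evT_single, evT_single, one_mul,
        act_zsmul, P.equi, map_zsmul, hSp, smul_smul, smul_smul, ← zpow_add, ← zpow_add,
        hd.S_pow, hb.S_pow]
      congr 3
      ring_nf

/-- mixed elements paired with pure elements of the first kind -/
theorem act_ev3_X (hS : ∀ d b, DC.S (P.β d b) = P.β (DD.S d) (DB.S b)) (d : D) {b : B}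
    (hb : DB.isX b) (g : Rn) :
    DC.act g (P.β d b) = ev3 DD P d b (AddMonoidAlgebra.mapDomainRingHom ℤ
      ((AddMonoidHom.fst ℕ ℤ).prod ((AddMonoidHom.snd ℕ ℤ).prod
        ((Nat.castAddMonoidHom ℤ).comp (AddMonoidHom.fst ℕ ℤ) + AddMonoidHom.snd ℕ ℤ))) g) := by
  have hSp : ∀ (a : ℕ) d b, (DC.S ^ a) (P.β d b) = P.β ((DD.S ^ a) d) ((DB.S ^ a) b) := by
    intro a
    induction a with
    | zero => intro d b; simp
    | succ a ih =>
      intro d b
      rw [pow_succ', pow_succ', pow_succ']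
      show DC.S ((DC.S ^ a) (P.β d b)) = P.β (DD.S ((DD.S ^ a) d)) (DB.S ((DB.S ^ a) b))
      rw [ih, hS]
  have h := act_eval DC ((AddMonoidHom.fst ℕ ℤ).prod ((AddMonoidHom.snd ℕ ℤ).prod
    ((Nat.castAddMonoidHom ℤ).comp (AddMonoidHom.fst ℕ ℤ) + AddMonoidHom.snd ℕ ℤ)))
    (ev3 DD P d b) ?_ g 1
  · have h1 : ev3 DD P d b 1 = P.β d b := by
      have : (1 : R3) = AddMonoidAlgebra.single ((0 : ℕ), (0 : ℤ), (0 : ℤ)) (1 : ℤ) := rfl
      rw [this, ev3_single, zpow_zero, one_smul, one_smul, one_smul, pow_zero]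
      rfl
    rw [mul_one, h1] at h
    exact h
  · intro g f
    obtain ⟨a, k⟩ := g
    show (DC.S ^ a) (t ^ k • ev3 DD P d b f) =
      ev3 DD P d b (AddMonoidAlgebra.single (a, k, (a : ℤ) + k) 1 * f)
    induction f using AddMonoidAlgebra.induction_linear with
    | zero => simp
    | add x y hx hy => rw [mul_add, map_add, smul_add, map_add, hx, hy, map_add]
    | single ij r =>
      obtain ⟨i, j, j'⟩ := ij
      rw [AddMonoidAlgebra.single_mul_single, Prod.mk_add_mk, Prod.mk_add_mk, ev3_single,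
        ev3_single, one_mul, act_zsmul, P.equi, map_zsmul, hSp, smul_smul, ← zpow_add,
        hb.S_pow, ← S_pow_smul DD i k, smul_smul, ← zpow_add]
      have h2 : (DD.S ^ (a + i)) (t ^ (k + j) • d) = (DD.S ^ a) ((DD.S ^ i) (t ^ (k + j) • d)) := by
        rw [pow_add]
        rfl
      rw [h2]
      congr 4
      ring_nf

/-- mixed elements paired with pure elements of the second kind -/
theorem act_ev3_Y (hS : ∀ d b, DC.S (P.β d b) = P.β (DD.S d) (DB.S b)) (d : D) {b : B}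
    (hb : DB.isY b) (g : Rn) :
    DC.act g (P.β d b) = ev3 DD P d b (AddMonoidAlgebra.mapDomainRingHom ℤ
      ((AddMonoidHom.fst ℕ ℤ).prod ((AddMonoidHom.snd ℕ ℤ).prod (AddMonoidHom.snd ℕ ℤ))) g) := by
  have hSp : ∀ (a : ℕ) d b, (DC.S ^ a) (P.β d b) = P.β ((DD.S ^ a) d) ((DB.S ^ a) b) := by
    intro a
    induction a with
    | zero => intro d b; simp
    | succ a ih =>
      intro d b
      rw [pow_succ', pow_succ', pow_succ']
      show DC.S ((DC.S ^ a) (P.β d b)) = P.β (DD.S ((DD.S ^ a) d)) (DB.S ((DB.S ^ a) b))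
      rw [ih, hS]
  have h := act_eval DC ((AddMonoidHom.fst ℕ ℤ).prod ((AddMonoidHom.snd ℕ ℤ).prod
    (AddMonoidHom.snd ℕ ℤ))) (ev3 DD P d b) ?_ g 1
  · have h1 : ev3 DD P d b 1 = P.β d b := by
      have : (1 : R3) = AddMonoidAlgebra.single ((0 : ℕ), (0 : ℤ), (0 : ℤ)) (1 : ℤ) := rfl
      rw [this, ev3_single, zpow_zero, one_smul, one_smul, one_smul, pow_zero]
      rfl
    rw [mul_one, h1] at h
    exact h
  · intro g f
    obtain ⟨a, k⟩ := g
    show (DC.S ^ a) (t ^ k • ev3 DD P d b f) =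
      ev3 DD P d b (AddMonoidAlgebra.single (a, k, k) 1 * f)
    induction f using AddMonoidAlgebra.induction_linear with
    | zero => simp
    | add x y hx hy => rw [mul_add, map_add, smul_add, map_add, hx, hy, map_add]
    | single ij r =>
      obtain ⟨i, j, j'⟩ := ij
      rw [AddMonoidAlgebra.single_mul_single, Prod.mk_add_mk, Prod.mk_add_mk, ev3_single,
        ev3_single, one_mul, act_zsmul, P.equi, map_zsmul, hSp, smul_smul, ← zpow_add,
        hb.S_pow, ← S_pow_smul DD i k, smul_smul, ← zpow_add]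
      have h2 : (DD.S ^ (a + i)) (t ^ (k + j) • d) = (DD.S ^ a) ((DD.S ^ i) (t ^ (k + j) • d)) := by
        rw [pow_add]
        rfl
      rw [h2]

end step

/-! ### the step -/

section main

variable {Γ : Type u} {D : Type v} {B : Type w} {C : Type x} [Group Γ] [AddCommGroup D]
    [AddCommGroup B] [AddCommGroup C] [DistribMulAction Γ D] [DistribMulAction Γ B]
    [DistribMulAction Γ C] {t : Γ} (DD : Dat t D) (DB : Dat t B) (DC : Dat t C)
    (P : PairD Γ D B C)

theorem list_prod_dvd {ι R : Type*} [CommRing R] (l : List ι) (a b : ι → R)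
    (h : ∀ x, a x ∣ b x) : (l.map a).prod ∣ (l.map b).prod := by
  induction l with
  | nil => simp
  | cons x l ih =>
    rw [List.map_cons, List.map_cons, List.prod_cons, List.prod_cons]
    exact mul_dvd_mul (h x) ih

/-- a part of the product suffices -/
theorem act_kill_of_dvd (DC : Dat t C) {f g : Rn} (h : f ∣ g) {m : C} (hf : DC.act f m = 0) :
    DC.act g m = 0 := by
  obtain ⟨c, rfl⟩ := h
  rw [mul_comm, DC.act_mul, hf, map_zero]

theorem step (halg : Stmt_ALG) (l p : List (ℕ × ℤ)) {W : Ideal R2} (hW : (l.map gel).prod ∈ W)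
    (hrel : ∀ f ∈ W, ∀ (d : D) (b : B), evT P t d b f = 0)
    (hS : ∀ d b, DC.S (P.β d b) = P.β (DD.S d) (DB.S b))
    (he : ∀ d b, DC.e (P.β d b) = P.β (DD.e d) (DB.e b))
    (hh : ∀ d b, DC.h (P.β d b) = P.β (DD.h d) (DB.h b))
    (hdec : DD.Dec) (hk : DD.Kill p)
    (hB : ∀ b : B, ∃ x y : B, DB.isX x ∧ DB.isY y ∧ b = x + y)
    (hgen : ∀ N : AddSubgroup C, (∀ d b, P.β d b ∈ N) → N = ⊤) :
    DC.Dec ∧ DC.Kill (nxt l p) := by
  obtain ⟨ha1, ha2⟩ := halg (I3 DD P) p l (e3_left DD P p hk) (e3_right DD P l hW hrel)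
  -- the four parts of the list
  have hprod : ((nxt l p).map e2).prod = (l.map e2).prod *
      (((l.map (fun x => (x.1, -(x.1 : ℤ) - x.2))).map e2).prod *
      (((p.flatMap fun e => l.map fun x => (e.1 * x.1, -(e.2 * x.2))).map e2).prod *
      ((p.flatMap fun e => l.map fun x =>
        (e.1 * x.1, -((e.1 * x.1 : ℕ) : ℤ) - x.2 * (e.1 + e.2))).map e2).prod)) := by
    rw [nxt, List.map_append, List.map_append, List.map_append, List.prod_append,
      List.prod_append, List.prod_append]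
  -- type (i)
  have k1 : ∀ d b, DD.isX d → DB.isY b → DC.act ((nxt l p).map e2).prod (P.β d b) = 0 := by
    intro d b hd hb
    refine act_kill_of_dvd DC (hprod ▸ Dvd.intro _ rfl) (f := (l.map e2).prod) ?_
    rw [act_evT_X DD DB DC P hS hd hb, map_prod_e2]
    exact hrel _ hW d b
  -- type (ii)
  have k2 : ∀ d b, DD.isY d → DB.isX b → DC.act ((nxt l p).map e2).prod (P.β d b) = 0 := by
    intro d b hd hb
    refine act_kill_of_dvd DC (hprod ▸ (Dvd.intro _ rfl : _ ∣ _ * _).mul_left _)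
      (f := ((l.map (fun x => (x.1, -(x.1 : ℤ) - x.2))).map e2).prod) ?_
    rw [act_evT_Y DD DB DC P hS hd hb, map_prod_e2, List.map_map]
    apply hrel
    refine W.mem_of_dvd ?_ hW
    apply list_prod_dvd
    rintro ⟨a, c⟩
    refine ⟨-AddMonoidAlgebra.single (-((a : ℤ) + c), -c) (1 : ℤ), ?_⟩
    show (AddMonoidAlgebra.single (-(a : ℤ) - c, (a : ℤ) + (-(a : ℤ) - c)) (1 : ℤ) - 1 : R2) = _
    rw [gel, sub_mul, mul_neg, AddMonoidAlgebra.single_mul_single, Prod.mk_add_mk, one_mul,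
      one_mul, add_neg_cancel, add_neg_cancel, sub_neg_eq_add]
    have h1 : (AddMonoidAlgebra.single ((0 : ℤ), (0 : ℤ)) (1 : ℤ) : R2) = 1 := rfl
    rw [h1]
    have h2 : (-(a : ℤ) - c, (a : ℤ) + (-(a : ℤ) - c)) = (-((a : ℤ) + c), -c) := by
      ext <;> simp <;> ring
    rw [h2]
    ring
  -- type (iii)
  have k3 : ∀ d b, DD.isM d → DB.isX b → DC.act ((nxt l p).map e2).prod (P.β d b) = 0 := by
    intro d b hd hb
    refine act_kill_of_dvd DC (hprod ▸ ((Dvd.intro_left _ rfl : _ ∣ _ * _).mul_left _).mul_left _)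
      (f := ((p.flatMap fun e => l.map fun x =>
        (e.1 * x.1, -((e.1 * x.1 : ℕ) : ℤ) - x.2 * (e.1 + e.2))).map e2).prod) ?_
    rw [act_ev3_X DD DB DC P hS d hb, map_prod_e2]
    have h1 := ha2 d hd b
    rw [← h1]
    congr 2
    rw [List.map_flatMap]
    congr 1
    funext e
    rw [List.map_map]
    apply List.map_congr_left
    intro x _
    show (AddMonoidAlgebra.single (e.1 * x.1, (-((e.1 * x.1 : ℕ) : ℤ) - x.2 * (e.1 + e.2)),
      ((e.1 * x.1 : ℕ) : ℤ) + (-((e.1 * x.1 : ℕ) : ℤ) - x.2 * (e.1 + e.2))) (1 : ℤ) - 1 : R3) = _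
    rw [e3]
    congr 3
    ext <;> simp <;> ring
  -- type (iv)
  have k4 : ∀ d b, DD.isM d → DB.isY b → DC.act ((nxt l p).map e2).prod (P.β d b) = 0 := by
    intro d b hd hb
    refine act_kill_of_dvd DC (hprod ▸ ((Dvd.intro _ rfl : _ ∣ _ * _).mul_left _).mul_left _)
      (f := ((p.flatMap fun e => l.map fun x => (e.1 * x.1, -(e.2 * x.2))).map e2).prod) ?_
    rw [act_ev3_Y DD DB DC P hS d hb, map_prod_e2]
    have h1 := ha1 d hd b
    rw [← h1]
    congr 2
    rw [List.map_flatMap]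
    congr 1
    funext e
    rw [List.map_map]
    rfl
  -- the decomposition
  let N : AddSubgroup C :=
    { carrier := {m | ∃ x y z : C, DC.isX x ∧ DC.isY y ∧ (DC.isM z ∧
        DC.act ((nxt l p).map e2).prod z = 0) ∧ m = x + y + z}
      add_mem' := by
        rintro _ _ ⟨x, y, z, hx, hy, hz, rfl⟩ ⟨x', y', z', hx', hy', hz', rfl⟩
        exact ⟨x + x', y + y', z + z', hx.add hx', hy.add hy', ⟨hz.1.add hz'.1, by
          rw [map_add, hz.2, hz'.2, add_zero]⟩, by abel⟩
      zero_mem' := ⟨0, 0, 0, Dat.isX.zero, Dat.isY.zero, ⟨Dat.isM.zero, map_zero _⟩, by simp⟩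
      neg_mem' := by
        rintro _ ⟨x, y, z, hx, hy, hz, rfl⟩
        exact ⟨-x, -y, -z, hx.neg, hy.neg, ⟨hz.1.neg, by rw [map_neg, hz.2, neg_zero]⟩, by abel⟩ }
  have hN : N = ⊤ := by
    apply hgen
    intro d b
    obtain ⟨x, y, z, hx, hy, hz, rfl⟩ := hdec d
    obtain ⟨x', y', hx', hy', rfl⟩ := hB b
    have e1 : P.β (x + y + z) (x' + y') = (P.β x x' + P.β y y') +
        ((P.β x y' + P.β y x') + (P.β z x' + P.β z y')) := by
      simp only [map_add, AddMonoidHom.add_apply]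
      abel
    rw [e1]
    have hX : ∀ {c : C}, DC.isX c → c ∈ N := fun {c} hc =>
      ⟨c, 0, 0, hc, Dat.isY.zero, ⟨Dat.isM.zero, map_zero _⟩, by simp⟩
    have hY : ∀ {c : C}, DC.isY c → c ∈ N := fun {c} hc =>
      ⟨0, c, 0, Dat.isX.zero, hc, ⟨Dat.isM.zero, map_zero _⟩, by simp⟩
    have hM : ∀ {c : C}, DC.isM c → DC.act ((nxt l p).map e2).prod c = 0 → c ∈ N :=
      fun {c} hc hc' => ⟨0, 0, c, Dat.isX.zero, Dat.isY.zero, ⟨hc, hc'⟩, by simp⟩
    refine add_mem (add_mem (hX ⟨?_, ?_, ?_⟩) (hY ⟨?_, ?_, ?_⟩)) (add_mem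
      (add_mem (hM ⟨?_, ?_⟩ (k1 _ _ hx hy')) (hM ⟨?_, ?_⟩ (k2 _ _ hy hx')))
      (add_mem (hM ⟨?_, ?_⟩ (k3 _ _ hz hx')) (hM ⟨?_, ?_⟩ (k4 _ _ hz hy'))))
    · rw [hS, hx.1, hx'.1, P.equi]
    · rw [he, hx.2.1, map_zero, AddMonoidHom.zero_apply]
    · rw [hh, hx.2.2, hx'.2.2]
    · rw [hS, hy.1, hy'.1]
    · rw [he, hy.2.1, hy'.2.1]
    · rw [hh, hy.2.2, map_zero, AddMonoidHom.zero_apply]
    · rw [he, hx.2.1, map_zero, AddMonoidHom.zero_apply]
    · rw [hh, hy'.2.2, map_zero]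
    · rw [he, hx'.2.1, map_zero]
    · rw [hh, hy.2.2, map_zero, AddMonoidHom.zero_apply]
    · rw [he, hz.1, map_zero, AddMonoidHom.zero_apply]
    · rw [hh, hz.2, map_zero, AddMonoidHom.zero_apply]
    · rw [he, hz.1, map_zero, AddMonoidHom.zero_apply]
    · rw [hh, hz.2, map_zero, AddMonoidHom.zero_apply]
  have hmem : ∀ m : C, ∃ x y z : C, DC.isX x ∧ DC.isY y ∧ (DC.isM z ∧
        DC.act ((nxt l p).map e2).prod z = 0) ∧ m = x + y + z := by
    intro m
    have : m ∈ N := by rw [hN]; trivial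
    exact this
  refine ⟨?_, ?_⟩
  · intro m
    obtain ⟨x, y, z, hx, hy, hz, rfl⟩ := hmem m
    exact ⟨x, y, z, hx, hy, hz.1, rfl⟩
  · intro m hm
    obtain ⟨x, y, z, hx, hy, hz, rfl⟩ := hmem m
    have h1 : y = 0 := by
      have := hm.1
      rwa [map_add, map_add, hx.2.1, hy.2.1, hz.1.1, zero_add, add_zero] at this
    have h2 : x = 0 := by
      have := hm.2
      rwa [map_add, map_add, hx.2.2, hy.2.2, hz.1.2, add_zero, add_zero] at this
    rw [h1, h2, zero_add, zero_add]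
    exact hz.2

end main

end Pool.Agent.FGRL
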