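import Mathlib
import Pool.Agent.FGRL.Mod
import Pool.Agent.Lib_helper93.FGRF.StepA

/-!
# The group-theoretic statement behind the laws `L_n`
-/

set_option autoImplicit false

namespace Pool.Agent.FGRL

open Pool.Agent.FGRF Pool.Agent.FGRF.Interface
open scoped commutatorElement

universe u

/-! ### induced maps on the lower central sections -/

section maps

variable {G : Type u} [Group G] {P : Subgroup G}

theorem map_lcs (φ : G →* G) (hφ : ∀ x ∈ P, φ x ∈ P) (j : ℕ) :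
    ∀ x ∈ P.lowerCentralSeries j, φ x ∈ P.lowerCentralSeries j := by
  induction j with
  | zero => exact hφ
  | succ j ih =>
    have h : P.lowerCentralSeries (j + 1) ≤ (P.lowerCentralSeries (j + 1)).comap φ := by
      conv_lhs => rw [Subgroup.lowerCentralSeries_succ]
      rw [Subgroup.commutator_le]
      intro a ha b hb
      rw [Subgroup.mem_comap, map_commutatorElement, Subgroup.lowerCentralSeries_succ]
      exact Subgroup.commutator_mem_commutator (ih a ha) (hφ b hb)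
    exact h

/-- the induced endomorphism of a lower central section -/
def secMap (hP : P.Normal) (φ : G →* G) (hφ : ∀ x ∈ P, φ x ∈ P) (j : ℕ) :
    AddMonoid.End (lsec hP j).Mod :=
  (lsec hP j).lift (fun x => NSec.cl (φ x.1) (map_lcs φ hφ j x.1 x.2))
    (fun x y => by
      rw [← NSec.cl_mul]
      exact NSec.cl_congr (by simp))
    (fun x hx => NSec.cl_eq_zero.2 (map_lcs φ hφ (j + 1) x.1 hx))

theorem secMap_cl (hP : P.Normal) (φ : G →* G) (hφ : ∀ x ∈ P, φ x ∈ P) (j : ℕ) {x : G}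
    (hx : x ∈ (lsec hP j).A) :
    secMap hP φ hφ j (NSec.cl x hx) = NSec.cl (φ x) (map_lcs φ hφ j x hx) := rfl

theorem secMap_smul (hP : P.Normal) (φ : G →* G) (hφ : ∀ x ∈ P, φ x ∈ P) (j : ℕ) {t : G}
    (ht : φ t = t) (k : ℤ) (m : (lsec hP j).Mod) :
    secMap hP φ hφ j (t ^ k • m) = t ^ k • secMap hP φ hφ j m := by
  obtain ⟨x, hx, rfl⟩ := NSec.cl_surjective m
  rw [NSec.smul_cl, secMap_cl, secMap_cl, NSec.smul_cl]
  exact NSec.cl_congr (by rw [map_mul, map_mul, map_inv, map_zpow, ht])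

theorem secMap_comm (hP : P.Normal) (φ ψ : G →* G) (hφ : ∀ x ∈ P, φ x ∈ P)
    (hψ : ∀ x ∈ P, ψ x ∈ P) (h : ∀ x, φ (ψ x) = ψ (φ x)) (j : ℕ) (m : (lsec hP j).Mod) :
    secMap hP φ hφ j (secMap hP ψ hψ j m) = secMap hP ψ hψ j (secMap hP φ hφ j m) := by
  obtain ⟨x, hx, rfl⟩ := NSec.cl_surjective m
  rw [secMap_cl, secMap_cl, secMap_cl, secMap_cl]
  exact NSec.cl_congr (h x)

theorem secMap_β (hP : P.Normal) (φ : G →* G) (hφ : ∀ x ∈ P, φ x ∈ P) (j : ℕ)
    (d : (lsec hP j).Mod) (b : (lsec hP 0).Mod) :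
    secMap hP φ hφ (j + 1) ((lpair hP j).pairD.β d b) =
      (lpair hP j).pairD.β (secMap hP φ hφ j d) (secMap hP φ hφ 0 b) := by
  obtain ⟨x, hx, rfl⟩ := NSec.cl_surjective d
  obtain ⟨y, hy, rfl⟩ := NSec.cl_surjective b
  exact NSec.cl_congr (S := lsec hP (j + 1))
    (x := φ (y * x * y⁻¹ * x⁻¹)) (y := φ y * φ x * (φ y)⁻¹ * (φ x)⁻¹) (by simp)
    (hx := map_lcs φ hφ (j + 1) _ ((lpair hP j).h1 x hx y hy))

theorem lpair_gen (hP : P.Normal) (j : ℕ) (N : AddSubgroup (lsec hP (j + 1)).Mod)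
    (hN : ∀ d b, (lpair hP j).pairD.β d b ∈ N) : N = ⊤ := by
  rw [eq_top_iff]
  intro c _
  obtain ⟨y, hy, rfl⟩ := NSec.cl_surjective c
  have h1 : P.lowerCentralSeries (j + 1) ≤ NSec.toSub N := by
    rw [Subgroup.lowerCentralSeries_succ, Subgroup.commutator_def, Subgroup.closure_le]
    rintro _ ⟨a, ha, b, hb, rfl⟩
    have h2 : a * b * a⁻¹ * b⁻¹ = (b * a * b⁻¹ * a⁻¹)⁻¹ := by group
    have h3 : b * a * b⁻¹ * a⁻¹ ∈ NSec.toSub N :=
      ⟨(lpair hP j).h1 a ha b hb, hN (NSec.cl a ha) (NSec.cl b hb)⟩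
    rw [commutatorElement_def, h2]
    exact inv_mem h3
  obtain ⟨h2, h3⟩ := h1 hy
  exact h3

end maps

/-! ### a group with three endomorphisms -/

/-- the hypotheses on the group and its endomorphisms -/
structure Sys (G : Type u) [Group G] where
  t : G
  x : G
  y : G
  σ : G →* G
  ε : G →* G
  η : G →* G
  gen : Subgroup.closure {t, x, y} = ⊤
  σt : σ t = t
  σx : σ x = t * x * t⁻¹
  σy : σ y = y
  εt : ε t = t
  εx : ε x = 1
  εy : ε y = y
  ηt : η t = t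
  ηx : η x = x
  ηy : η y = 1

namespace Sys

variable {G : Type u} [Group G] (T : Sys G)

/-- the normal closure of `x` and `y` -/
def P : Subgroup G := Subgroup.normalClosure {T.x, T.y}

theorem hP : T.P.Normal := Subgroup.normalClosure_normal

theorem x_mem : T.x ∈ T.P := Subgroup.subset_normalClosure (by simp)

theorem y_mem : T.y ∈ T.P := Subgroup.subset_normalClosure (by simp)

theorem map_P (φ : G →* G) (hx : φ T.x ∈ T.P) (hy : φ T.y ∈ T.P) : ∀ z ∈ T.P, φ z ∈ T.P := by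
  have := T.hP
  have h : T.P ≤ T.P.comap φ := by
    refine Subgroup.normalClosure_le_normal ?_
    rintro z (rfl | rfl)
    · exact hx
    · exact hy
  exact h

theorem σP : ∀ z ∈ T.P, T.σ z ∈ T.P := T.map_P T.σ
  (by rw [T.σx]; exact T.hP.conj_mem _ T.x_mem _) (by rw [T.σy]; exact T.y_mem)

theorem εP : ∀ z ∈ T.P, T.ε z ∈ T.P := T.map_P T.ε
  (by rw [T.εx]; exact one_mem _) (by rw [T.εy]; exact T.y_mem)

theorem ηP : ∀ z ∈ T.P, T.η z ∈ T.P := T.map_P T.η
  (by rw [T.ηx]; exact T.x_mem) (by rw [T.ηy]; exact one_mem _)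

theorem εσ (z : G) : T.ε (T.σ z) = T.σ (T.ε z) := by
  have h : T.ε.comp T.σ = T.σ.comp T.ε := by
    refine MonoidHom.eq_of_eqOn_dense T.gen ?_
    rintro z (rfl | rfl | rfl)
    · simp [T.σt, T.εt]
    · simp [T.σx, T.εx]
    · simp [T.σy, T.εy]
  exact DFunLike.congr_fun h z

theorem ησ (z : G) : T.η (T.σ z) = T.σ (T.η z) := by
  have h : T.η.comp T.σ = T.σ.comp T.η := by
    refine MonoidHom.eq_of_eqOn_dense T.gen ?_
    rintro z (rfl | rfl | rfl)
    · simp [T.σt, T.ηt]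
    · simp [T.σx, T.ηx, T.ηt]
    · simp [T.σy, T.ηy]
  exact DFunLike.congr_fun h z

/-- the three endomorphisms of the sections -/
def dat (j : ℕ) : Dat T.t (lsec T.hP j).Mod where
  S := secMap T.hP T.σ T.σP j
  e := secMap T.hP T.ε T.εP j
  h := secMap T.hP T.η T.ηP j
  St := secMap_smul _ _ _ _ T.σt
  et := secMap_smul _ _ _ _ T.εt
  ht := secMap_smul _ _ _ _ T.ηt
  eS := secMap_comm _ _ _ _ _ T.εσ j
  hS := secMap_comm _ _ _ _ _ T.ησ j

theorem dat_S (j : ℕ) {z : G} (hz : z ∈ (lsec T.hP j).A) :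
    (T.dat j).S (NSec.cl z hz) = NSec.cl (T.σ z) (map_lcs T.σ T.σP j z hz) := rfl

theorem dat_e (j : ℕ) {z : G} (hz : z ∈ (lsec T.hP j).A) :
    (T.dat j).e (NSec.cl z hz) = NSec.cl (T.ε z) (map_lcs T.ε T.εP j z hz) := rfl

theorem dat_h (j : ℕ) {z : G} (hz : z ∈ (lsec T.hP j).A) :
    (T.dat j).h (NSec.cl z hz) = NSec.cl (T.η z) (map_lcs T.η T.ηP j z hz) := rfl

theorem dec0 (b : (lsec T.hP 0).Mod) :
    ∃ x y, (T.dat 0).isX x ∧ (T.dat 0).isY y ∧ b = x + y := by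
  let N : AddSubgroup (lsec T.hP 0).Mod :=
    { carrier := {m | ∃ x y, (T.dat 0).isX x ∧ (T.dat 0).isY y ∧ m = x + y}
      add_mem' := by
        rintro _ _ ⟨x, y, hx, hy, rfl⟩ ⟨x', y', hx', hy', rfl⟩
        exact ⟨x + x', y + y', hx.add hx', hy.add hy', by abel⟩
      zero_mem' := ⟨0, 0, Dat.isX.zero, Dat.isY.zero, by simp⟩
      neg_mem' := by
        rintro _ ⟨x, y, hx, hy, rfl⟩
        exact ⟨-x, -y, hx.neg, hy.neg, by abel⟩ }
  have hNt : ∀ (k : ℤ), ∀ m ∈ N, T.t ^ k • m ∈ N := by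
    rintro k _ ⟨x, y, hx, hy, rfl⟩
    refine ⟨T.t ^ k • x, T.t ^ k • y, ⟨?_, ?_, ?_⟩, ⟨?_, ?_, ?_⟩, smul_add _ _ _⟩
    · rw [(T.dat 0).St, hx.1, smul_smul, smul_smul, ← zpow_add_one, ← zpow_one_add, add_comm]
    · rw [(T.dat 0).et, hx.2.1, smul_zero]
    · rw [(T.dat 0).ht, hx.2.2]
    · rw [(T.dat 0).St, hy.1]
    · rw [(T.dat 0).et, hy.2.1]
    · rw [(T.dat 0).ht, hy.2.2, smul_zero]
  have hact : ∀ g ∈ T.P, ∀ m ∈ N, g • m ∈ N := by
    intro g hg m hm
    rw [lsec_act T.hP 0 g hg m]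
    exact hm
  let K : Subgroup G :=
    { carrier := {g | ∀ m ∈ N, g • m ∈ N ∧ g⁻¹ • m ∈ N}
      mul_mem' := by
        intro a b ha hb m hm
        rw [mul_smul, mul_inv_rev, mul_smul]
        exact ⟨(ha _ (hb m hm).1).1, (hb _ (ha m hm).2).2⟩
      one_mem' := by
        intro m hm
        rw [inv_one, one_smul]
        exact ⟨hm, hm⟩
      inv_mem' := by
        intro a ha m hm
        rw [inv_inv]
        exact ⟨(ha m hm).2, (ha m hm).1⟩ }
  have hK : K = ⊤ := by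
    rw [eq_top_iff, ← T.gen, Subgroup.closure_le]
    rintro g (rfl | rfl | rfl)
    · intro m hm
      have h1 := hNt 1 m hm
      have h2 := hNt (-1) m hm
      rw [zpow_one] at h1
      rw [zpow_neg_one] at h2
      exact ⟨h1, h2⟩
    · exact fun m hm => ⟨hact _ T.x_mem m hm, hact _ (inv_mem T.x_mem) m hm⟩
    · exact fun m hm => ⟨hact _ T.y_mem m hm, hact _ (inv_mem T.y_mem) m hm⟩
  have hN : (NSec.toSub N).Normal := NSec.toSub_normal (by
    intro g m hm
    have : g ∈ K := by rw [hK]; trivial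
    exact (this m hm).1)
  have hle : T.P ≤ NSec.toSub N := by
    refine Subgroup.normalClosure_le_normal ?_
    rintro z (rfl | rfl)
    · refine ⟨T.x_mem, NSec.cl T.x T.x_mem, 0, ⟨?_, ?_, ?_⟩, Dat.isY.zero, by simp⟩
      · rw [T.dat_S 0 T.x_mem, NSec.smul_cl]
        exact NSec.cl_congr T.σx
      · rw [T.dat_e 0 T.x_mem, NSec.cl_congr T.εx]
        exact NSec.cl_one
      · rw [T.dat_h 0 T.x_mem]
        exact NSec.cl_congr T.ηx
    · refine ⟨T.y_mem, 0, NSec.cl T.y T.y_mem, Dat.isX.zero, ⟨?_, ?_, ?_⟩, by simp⟩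
      · rw [T.dat_S 0 T.y_mem]
        exact NSec.cl_congr T.σy
      · rw [T.dat_e 0 T.y_mem]
        exact NSec.cl_congr T.εy
      · rw [T.dat_h 0 T.y_mem, NSec.cl_congr T.ηy]
        exact NSec.cl_one
  obtain ⟨z, hz, rfl⟩ := NSec.cl_surjective b
  obtain ⟨h2, h3⟩ := hle hz
  exact h3

end Sys

/-- the lists of relations for the lower central factors -/
def ell (l : List (ℕ × ℤ)) : ℕ → List (ℕ × ℤ)
  | 0 => []
  | j + 1 => nxt l (ell l j)

theorem Sys.dec_kill (halg : Stmt_ALG) {L : Set (FreeGroup ℕ)} {l : List (ℕ × ℤ)}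
    (hW : (l.map gel).prod ∈ Wid L) {G : Type u} [Group G] (hsat : Sat L G) (T : Sys G) (j : ℕ) :
    (T.dat j).Dec ∧ (T.dat j).Kill (ell l j) := by
  induction j with
  | zero =>
    refine ⟨?_, ?_⟩
    · intro m
      obtain ⟨x, y, hx, hy, rfl⟩ := T.dec0 m
      exact ⟨x, y, 0, hx, hy, Dat.isM.zero, by rw [add_zero]⟩
    · intro m hm
      obtain ⟨x, y, hx, hy, rfl⟩ := T.dec0 m
      have h1 : y = 0 := by
        have := hm.1
        rwa [map_add, hx.2.1, hy.2.1, zero_add] at this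
      have h2 : x = 0 := by
        have := hm.2
        rwa [map_add, hx.2.2, hy.2.2, add_zero] at this
      rw [h1, h2, add_zero, map_zero]
  | succ j ih =>
    exact step (T.dat j) (T.dat 0) (T.dat (j + 1)) (lpair T.hP j).pairD halg l (ell l j) hW
      (fun f hf d b => relation ((lpair T.hP j).sat_trip hsat) T.t d b hf)
      (secMap_β T.hP T.σ T.σP j) (secMap_β T.hP T.ε T.εP j) (secMap_β T.hP T.η T.ηP j)
      ih.1 ih.2 T.dec0 (lpair_gen T.hP j)

end Pool.Agent.FGRL
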