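import Mathlib
import Pool.Agent.FGRL.Grp

/-!
# The value of `L_n` is trivial
-/

set_option autoImplicit false

namespace Pool.Agent.FGRL

open Pool.Agent.FGRF Pool.Agent.FGRF.Interface
open scoped commutatorElement

universe u

/-! ### lists -/

theorem mem_pairsL {n : ℕ} {x : ℕ × ℤ} (h1 : 1 ≤ x.1) (h2 : x.1 ≤ n) (h3 : -(n : ℤ) ≤ x.2)
    (h4 : x.2 ≤ n) : x ∈ pairsL n := by
  obtain ⟨a, b⟩ := x
  simp only at h1 h2 h3 h4
  unfold pairsL
  rw [List.mem_flatMap]
  have ha : a - 1 < n := by omega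
  have hb : (b + n).toNat < 2 * n + 1 := by omega
  refine ⟨a - 1, List.mem_range.2 ha, ?_⟩
  rw [List.mem_map]
  refine ⟨(b + n).toNat, List.mem_range.2 hb, ?_⟩
  ext
  · show a - 1 + 1 = a
    omega
  · show ((b + n).toNat : ℤ) - n = b
    omega

theorem exists_bound (l : List (ℕ × ℤ)) (hl : ∀ x ∈ l, 1 ≤ x.1) :
    ∃ N : ℕ, ∀ n ≥ N, ∀ x ∈ l, x ∈ pairsL n := by
  induction l with
  | nil => exact ⟨0, fun n _ x hx => by simp at hx⟩
  | cons y l ih =>
    obtain ⟨N, hN⟩ := ih fun x hx => hl x (List.mem_cons_of_mem _ hx)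
    have hy := hl y List.mem_cons_self
    refine ⟨N + y.1 + y.2.natAbs, fun n hn x hx => ?_⟩
    rcases List.mem_cons.1 hx with rfl | hx
    · exact mem_pairsL hy (by omega) (by omega) (by omega)
    · exact hN n (by omega) x hx

theorem ell_pos {l : List (ℕ × ℤ)} (hl : ∀ x ∈ l, 1 ≤ x.1) (j : ℕ) : ∀ x ∈ ell l j, 1 ≤ x.1 := by
  induction j with
  | zero => intro x hx; simp [ell] at hx
  | succ j ih =>
    intro x hx
    rw [ell, nxt, List.mem_append, List.mem_append, List.mem_append] at hx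
    rcases hx with hx | hx | hx | hx
    · exact hl x hx
    · obtain ⟨y, hy, rfl⟩ := List.mem_map.1 hx
      exact hl y hy
    · obtain ⟨e, he, hx⟩ := List.mem_flatMap.1 hx
      obtain ⟨y, hy, rfl⟩ := List.mem_map.1 hx
      exact Nat.mul_pos (ih e he) (hl y hy)
    · obtain ⟨e, he, hx⟩ := List.mem_flatMap.1 hx
      obtain ⟨y, hy, rfl⟩ := List.mem_map.1 hx
      exact Nat.mul_pos (ih e he) (hl y hy)

theorem prod_dvd_pow {l L₀ : List (ℕ × ℤ)} (h : ∀ x ∈ l, x ∈ L₀) :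
    (l.map e2).prod ∣ (L₀.map e2).prod ^ l.length := by
  induction l with
  | nil => simp
  | cons y l ih =>
    rw [List.map_cons, List.prod_cons, List.length_cons, pow_succ']
    exact mul_dvd_mul (List.dvd_prod (List.mem_map_of_mem (h y List.mem_cons_self)))
      (ih fun x hx => h x (List.mem_cons_of_mem _ hx))

/-! ### the rounds on the sections -/

namespace Sys

variable {G : Type u} [Group G] (T : Sys G)

theorem S_pow_cl (j a : ℕ) {w : G} (hw : w ∈ (lsec T.hP j).A) :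
    ∃ h : (T.σ : G → G)^[a] w ∈ (lsec T.hP j).A,
      ((T.dat j).S ^ a) (NSec.cl w hw) = NSec.cl ((T.σ : G → G)^[a] w) h := by
  induction a with
  | zero => exact ⟨hw, rfl⟩
  | succ a ih =>
    obtain ⟨h, ih⟩ := ih
    have h1 : (T.σ : G → G)^[a + 1] w = T.σ ((T.σ : G → G)^[a] w) :=
      Function.iterate_succ_apply' _ _ _
    refine ⟨h1 ▸ map_lcs T.σ T.σP j _ h, ?_⟩
    rw [pow_succ']
    show (T.dat j).S (((T.dat j).S ^ a) (NSec.cl w hw)) = _
    rw [ih, T.dat_S]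
    exact (NSec.cl_congr h1.symm)

theorem cl_dsg (j : ℕ) (x : ℕ × ℤ) {w : G} (hw : w ∈ (lsec T.hP j).A) :
    ∃ h : dsg T.σ T.t x w ∈ (lsec T.hP j).A,
      (NSec.cl (dsg T.σ T.t x w) h : (lsec T.hP j).Mod) =
        (T.dat j).act (e2 x) (NSec.cl w hw) := by
  obtain ⟨h, h1⟩ := T.S_pow_cl j x.1 hw
  have h2 := NSec.conj_mem (S := lsec T.hP j) h (T.t ^ x.2)
  refine ⟨mul_mem h2 (inv_mem hw), ?_⟩
  rw [(T.dat j).act_e2, S_pow_smul, h1, NSec.smul_cl, sub_eq_add_neg, ← NSec.cl_inv,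
    ← NSec.cl_mul]
  rfl

theorem cl_round (j : ℕ) (l : List (ℕ × ℤ)) {w : G} (hw : w ∈ (lsec T.hP j).A) :
    ∃ h : l.foldr (dsg T.σ T.t) w ∈ (lsec T.hP j).A,
      (NSec.cl (l.foldr (dsg T.σ T.t) w) h : (lsec T.hP j).Mod) =
        (T.dat j).act (l.map e2).prod (NSec.cl w hw) := by
  induction l with
  | nil =>
    refine ⟨hw, ?_⟩
    rw [List.map_nil, List.prod_nil, map_one]
    rfl
  | cons x l ih =>
    obtain ⟨h, ih⟩ := ih
    obtain ⟨h1, h2⟩ := T.cl_dsg j x h
    refine ⟨h1, ?_⟩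
    rw [List.map_cons, List.prod_cons, (T.dat j).act_mul, ← ih, ← h2]
    rfl

theorem cl_rounds (j r : ℕ) (l : List (ℕ × ℤ)) {w : G} (hw : w ∈ (lsec T.hP j).A) :
    ∃ h : (fun g => l.foldr (dsg T.σ T.t) g)^[r] w ∈ (lsec T.hP j).A,
      (NSec.cl ((fun g => l.foldr (dsg T.σ T.t) g)^[r] w) h : (lsec T.hP j).Mod) =
        (T.dat j).act ((l.map e2).prod ^ r) (NSec.cl w hw) := by
  induction r with
  | zero =>
    refine ⟨hw, ?_⟩
    rw [pow_zero, map_one]
    rfl
  | succ r ih =>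
    obtain ⟨h, ih⟩ := ih
    obtain ⟨h1, h2⟩ := T.cl_round j l h
    have h3 : (fun g => l.foldr (dsg T.σ T.t) g)^[r + 1] w =
      l.foldr (dsg T.σ T.t) ((fun g => l.foldr (dsg T.σ T.t) g)^[r] w) :=
      Function.iterate_succ_apply' _ _ _
    refine ⟨h3 ▸ h1, ?_⟩
    rw [pow_succ', (T.dat j).act_mul, ← ih, ← h2]
    exact NSec.cl_congr h3

/-- elements which become trivial if `x = 1` or if `y = 1` -/
def Mix (w : G) : Prop := T.ε w = 1 ∧ T.η w = 1

theorem mix_dsg (x : ℕ × ℤ) {w : G} (hw : T.Mix w) : T.Mix (dsg T.σ T.t x w) := by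
  have h : ∀ a : ℕ, T.Mix ((T.σ : G → G)^[a] w) := by
    intro a
    induction a with
    | zero => exact hw
    | succ a ih =>
      rw [Function.iterate_succ_apply']
      exact ⟨by rw [T.εσ, ih.1, map_one], by rw [T.ησ, ih.2, map_one]⟩
  refine ⟨?_, ?_⟩
  · rw [dsg, map_mul, map_mul, map_mul, (h x.1).1, map_inv, map_inv, hw.1]
    simp
  · rw [dsg, map_mul, map_mul, map_mul, (h x.1).2, map_inv, map_inv, hw.2]
    simp

theorem mix_round (l : List (ℕ × ℤ)) {w : G} (hw : T.Mix w) :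
    T.Mix (l.foldr (dsg T.σ T.t) w) := by
  induction l with
  | nil => exact hw
  | cons x l ih => exact T.mix_dsg x ih

theorem mix_rounds (r : ℕ) (l : List (ℕ × ℤ)) {w : G} (hw : T.Mix w) :
    T.Mix ((fun g => l.foldr (dsg T.σ T.t) g)^[r] w) := by
  induction r with
  | zero => exact hw
  | succ r ih =>
    rw [Function.iterate_succ_apply']
    exact T.mix_round l ih

theorem mix_isM (j : ℕ) {w : G} (hw : w ∈ (lsec T.hP j).A) (h : T.Mix w) :
    (T.dat j).isM (NSec.cl w hw) := by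
  refine ⟨?_, ?_⟩
  · rw [T.dat_e j hw, NSec.cl_congr h.1]
    exact NSec.cl_one
  · rw [T.dat_h j hw, NSec.cl_congr h.2]
    exact NSec.cl_one

/-- enough rounds move a mixed element one step down -/
theorem down (j r : ℕ) {p l : List (ℕ × ℤ)} (hk : (T.dat j).Kill p) (hp : ∀ x ∈ p, x ∈ l)
    (hr : p.length ≤ r) {w : G} (hw : w ∈ T.P.lowerCentralSeries j) (hm : T.Mix w) :
    (fun g => l.foldr (dsg T.σ T.t) g)^[r] w ∈ T.P.lowerCentralSeries (j + 1) := by
  obtain ⟨h, h1⟩ := T.cl_rounds j r l hw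
  have h2 : (T.dat j).act ((l.map e2).prod ^ r) (NSec.cl w hw) = 0 :=
    act_kill_of_dvd (T.dat j) ((prod_dvd_pow hp).trans (pow_dvd_pow _ hr))
      (hk _ (T.mix_isM j hw hm))
  rw [h2] at h1
  exact NSec.cl_eq_zero.1 h1

theorem round_one (l : List (ℕ × ℤ)) : l.foldr (dsg T.σ T.t) 1 = 1 := by
  have h : ∀ a : ℕ, (T.σ : G → G)^[a] 1 = 1 := by
    intro a
    induction a with
    | zero => rfl
    | succ a ih => rw [Function.iterate_succ_apply', ih, map_one]
  induction l with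
  | nil => rfl
  | cons x l ih =>
    rw [List.foldr_cons, ih, dsg, h]
    simp

theorem rounds_one (r : ℕ) (l : List (ℕ × ℤ)) :
    (fun g => l.foldr (dsg T.σ T.t) g)^[r] 1 = 1 := by
  induction r with
  | zero => rfl
  | succ r ih =>
    rw [Function.iterate_succ_apply', ih]
    exact T.round_one l

end Sys

/-- The main statement on groups with the three endomorphisms. -/
theorem grp (halg : Stmt_ALG) {L : Set (FreeGroup ℕ)} {l : List (ℕ × ℤ)}
    (hl : ∀ x ∈ l, 1 ≤ x.1) (hW : (l.map gel).prod ∈ Wid L) (k : ℕ) :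
    ∃ N : ℕ, ∀ n ≥ N, ∀ (G : Type u) [Group G], Sat L G → ∀ T : Sys G,
      T.P.lowerCentralSeries k = ⊥ →
      (fun g => (pairsL n).foldr (dsg T.σ T.t) g)^[n] ⁅T.x, T.y⁆ = 1 := by
  -- the number of rounds needed to reach `γ_j`
  have key : ∀ j : ℕ, ∃ N : ℕ, ∀ n ≥ N, ∀ (G : Type u) [Group G], Sat L G → ∀ T : Sys G,
      ∀ r ≥ N, (fun g => (pairsL n).foldr (dsg T.σ T.t) g)^[r] ⁅T.x, T.y⁆ ∈
        T.P.lowerCentralSeries j := by
    intro j
    induction j with
    | zero =>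
      refine ⟨0, fun n _ G _ hsat T r _ => ?_⟩
      have h : ⁅T.x, T.y⁆ ∈ (lsec T.hP 0).A := by
        show ⁅T.x, T.y⁆ ∈ T.P
        rw [commutatorElement_def]
        exact mul_mem (mul_mem (mul_mem T.x_mem T.y_mem) (inv_mem T.x_mem)) (inv_mem T.y_mem)
      exact (T.cl_rounds 0 r (pairsL n) h).1
    | succ j ih =>
      obtain ⟨N, hN⟩ := ih
      obtain ⟨N', hN'⟩ := exists_bound (ell l j) (ell_pos hl j)
      refine ⟨N + N' + (ell l j).length, fun n hn G _ hsat T r hr => ?_⟩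
      have h1 := hN n (by omega) G hsat T N le_rfl
      have hmix : T.Mix ⁅T.x, T.y⁆ := by
        refine ⟨?_, ?_⟩
        · rw [map_commutatorElement, T.εx, commutatorElement_one_left]
        · rw [map_commutatorElement, T.ηy, commutatorElement_one_right]
      have h2 := T.down j (r - N) (T.dec_kill halg hW hsat j).2 (hN' n (by omega))
        (by omega) h1 (T.mix_rounds N (pairsL n) hmix)
      rw [← Function.iterate_add_apply] at h2
      have h3 : r - N + N = r := by omega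
      rwa [h3] at h2
  obtain ⟨N, hN⟩ := key k
  refine ⟨N, fun n hn G _ hsat T hk => ?_⟩
  have h := hN n hn G hsat T n hn
  rw [hk] at h
  exact Subgroup.mem_bot.1 h

end Pool.Agent.FGRL
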