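import Mathlib
import Pool.Agent.FGRL.Rounds
import Pool.Agent.Lib_helper35.FGRF.Transfer

/-!
# The laws `L_n` hold if none of the groups `X p`, `S p q` lies in the variety
-/

set_option autoImplicit false

namespace Pool.Agent.FGRL

open Pool.Agent.FGRF Pool.Agent.FGRF.Interface
open scoped commutatorElement

universe u v

/-! ### the iterated commutator -/

section eng

variable {G : Type u} [Group G] {H : Type v} [Group H]

theorem map_eng (φ : G →* H) (n : ℕ) (t y : G) : φ (eng n t y) = eng n (φ t) (φ y) := by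
  have h : ∀ r : ℕ, φ ((fun z => ⁅t ^ n, z⁆)^[r] y) = (fun z => ⁅(φ t) ^ n, z⁆)^[r] (φ y) := by
    intro r
    induction r with
    | zero => rfl
    | succ r ih =>
      rw [Function.iterate_succ_apply', Function.iterate_succ_apply', map_commutatorElement, ih,
        map_pow]
  exact h n

theorem eng_one (n : ℕ) (t : G) : eng n t 1 = 1 := by
  have h : ∀ r : ℕ, (fun z => ⁅t ^ n, z⁆)^[r] (1 : G) = 1 := by
    intro r
    induction r with
    | zero => rfl
    | succ r ih => rw [Function.iterate_succ_apply', ih, commutatorElement_one_right]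
  exact h n

theorem eng_conj (n : ℕ) (t y : G) : eng n t (t * y * t⁻¹) = t * eng n t y * t⁻¹ := by
  have h := map_eng (MulAut.conj t).toMonoidHom n t y
  have h1 : (MulAut.conj t).toMonoidHom t = t := by simp
  have h2 : (MulAut.conj t).toMonoidHom y = t * y * t⁻¹ := by simp
  have h3 : (MulAut.conj t).toMonoidHom (eng n t y) = t * eng n t y * t⁻¹ := by simp
  rw [h1, h2, h3] at h
  exact h.symm

theorem eng_mem {K : Subgroup G} (hK : K.Normal) {n : ℕ} {t : G} (ht : t ^ n ∈ K) (y : G) (m : ℕ) :
    (fun z => ⁅t ^ n, z⁆)^[m + 1] y ∈ K.lowerCentralSeries m := by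
  induction m with
  | zero =>
    show ⁅t ^ n, y⁆ ∈ K
    rw [commutatorElement_def]
    have h := hK.conj_mem _ (inv_mem ht) y
    have h2 := mul_mem ht h
    convert h2 using 1
    group
  | succ m ih =>
    rw [Function.iterate_succ_apply']
    have := cm_mem_lcs' (P := K) ih ht
    rwa [commutatorElement_def]

theorem eng_mem_lcs {K : Subgroup G} (hK : K.Normal) {n c : ℕ} {t : G} (ht : t ^ n ∈ K)
    (hn : c + 1 ≤ n) (y : G) : eng n t y ∈ K.lowerCentralSeries c := by
  have h := eng_mem hK ht y (n - 1)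
  have h2 : n - 1 + 1 = n := by omega
  rw [h2] at h
  exact Subgroup.lowerCentralSeries_antitone _ (by omega : c ≤ n - 1) h

end eng

/-! ### the relatively free group of rank three -/

section free

variable (L : Set (FreeGroup ℕ))

/-- the relatively free group of rank three -/
abbrev F3 : Type := FreeGroup (Fin 3) ⧸ verbal L (FreeGroup (Fin 3))

theorem sat_F3 : Sat L (F3 L) :=
  Sat.of_verbal_le (QuotientGroup.mk' _) (QuotientGroup.mk'_surjective _)
    fun x hx => (QuotientGroup.eq_one_iff x).2 hx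

/-- the generators -/
def gn (i : Fin 3) : F3 L := QuotientGroup.mk (FreeGroup.of i)

variable {L}

/-- the homomorphism with given values on the generators -/
def hom3 {G : Type v} [Group G] (hG : Sat L G) (f : Fin 3 → G) : F3 L →* G :=
  QuotientGroup.lift _ (FreeGroup.lift f) fun _ hx => map_verbal_eq_one hG _ hx

theorem hom3_gn {G : Type v} [Group G] (hG : Sat L G) (f : Fin 3 → G) (i : Fin 3) :
    hom3 hG f (gn L i) = f i := by
  show FreeGroup.lift f (FreeGroup.of i) = f i
  simp

end free

/-! ### restriction to a subgroup -/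

section restrict

variable {F : Type u} [Group F]

theorem coe_dsg {K : Subgroup F} (σ : F →* F) (σ' : K →* K) (h : ∀ z : K, (σ' z : F) = σ z)
    (t : K) (x : ℕ × ℤ) (w : K) : ((dsg σ' t x w : K) : F) = dsg σ (t : F) x (w : F) := by
  have h1 : ∀ a : ℕ, (((σ' : K → K)^[a] w : K) : F) = (σ : F → F)^[a] (w : F) := by
    intro a
    induction a with
    | zero => rfl
    | succ a ih => rw [Function.iterate_succ_apply', Function.iterate_succ_apply', h, ih]
  unfold dsg
  push_cast
  rw [h1]

theorem coe_round {K : Subgroup F} (σ : F →* F) (σ' : K →* K) (h : ∀ z : K, (σ' z : F) = σ z)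
    (t : K) (l : List (ℕ × ℤ)) (w : K) :
    ((l.foldr (dsg σ' t) w : K) : F) = l.foldr (dsg σ (t : F)) (w : F) := by
  induction l with
  | nil => rfl
  | cons x l ih => rw [List.foldr_cons, List.foldr_cons, coe_dsg σ σ' h, ih]

theorem coe_rounds {K : Subgroup F} (σ : F →* F) (σ' : K →* K) (h : ∀ z : K, (σ' z : F) = σ z)
    (t : K) (l : List (ℕ × ℤ)) (r : ℕ) (w : K) :
    (((fun g => l.foldr (dsg σ' t) g)^[r] w : K) : F) =
      (fun g => l.foldr (dsg σ (t : F)) g)^[r] (w : F) := by
  induction r with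
  | zero => rfl
  | succ r ih =>
    rw [Function.iterate_succ_apply', Function.iterate_succ_apply', coe_round σ σ' h, ih]

/-- restriction of an endomorphism to a subgroup given by generators -/
def resHom (S : Set F) (φ : F →* F) (h : ∀ z ∈ S, φ z ∈ Subgroup.closure S) :
    Subgroup.closure S →* Subgroup.closure S :=
  (φ.comp (Subgroup.closure S).subtype).codRestrict (Subgroup.closure S) (by
    have h1 : Subgroup.closure S ≤ (Subgroup.closure S).comap φ := by
      rw [Subgroup.closure_le]
      exact h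
    exact fun z => h1 z.2)

theorem coe_resHom (S : Set F) (φ : F →* F) (h : ∀ z ∈ S, φ z ∈ Subgroup.closure S)
    (z : Subgroup.closure S) : (resHom S φ h z : F) = φ z := rfl

end restrict

/-! ### the positive half -/

/-- the system of a relatively free group -/
theorem law_F3 (halg : Stmt_ALG) (hnat : Stmt_NAT) {L : Set (FreeGroup ℕ)}
    {l : List (ℕ × ℤ)} (hl : ∀ x ∈ l, 1 ≤ x.1) (hW : (l.map gel).prod ∈ Wid L)
    (hV : VMN (F3 L)) : ∃ n : ℕ, 1 ≤ n ∧ lawL n (gn L 0) (gn L 1) (gn L 2) = 1 := by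
  obtain ⟨H, hfin, c, k, hck⟩ := hV
  set K := H.normalCore with hKdef
  have hK : K.Normal := Subgroup.normalCore_normal H
  have hKfin : K.FiniteIndex := inferInstance
  have hQ : (K.lowerCentralSeries c).lowerCentralSeries k = ⊥ := by
    rw [eq_bot_iff, ← hck]
    exact Subgroup.lowerCentralSeries_mono k
      (Subgroup.lowerCentralSeries_mono c (Subgroup.normalCore_le H))
  set Q := K.lowerCentralSeries c with hQdef
  have hQn : Q.Normal := lcs_normal hK c
  obtain ⟨N, hN⟩ := grp.{0} halg hl hW k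
  have hi : 1 ≤ K.index := Nat.one_le_iff_ne_zero.2 hKfin.index_ne_zero
  refine ⟨K.index * (N + c + 1), Nat.mul_pos hi (by omega), ?_⟩
  set n := K.index * (N + c + 1) with hn
  have hn1 : N + c + 1 ≤ n := Nat.le_mul_of_pos_left _ hi
  set t := gn L 0 with ht
  set y := gn L 1 with hy
  set z := gn L 2 with hz
  have htK : t ^ n ∈ K := by
    rw [hn, pow_mul]
    exact pow_mem (K.pow_index_mem t) _
  -- the endomorphisms
  have hs := sat_F3 L
  let σ : F3 L →* F3 L := hom3 hs ![t, t * y * t⁻¹, z]
  let ε : F3 L →* F3 L := hom3 hs ![t, 1, z]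
  let η : F3 L →* F3 L := hom3 hs ![t, y, 1]
  have σt : σ t = t := hom3_gn hs _ 0
  have σy : σ y = t * y * t⁻¹ := hom3_gn hs _ 1
  have σz : σ z = z := hom3_gn hs _ 2
  have εt : ε t = t := hom3_gn hs _ 0
  have εy : ε y = 1 := hom3_gn hs _ 1
  have εz : ε z = z := hom3_gn hs _ 2
  have ηt : η t = t := hom3_gn hs _ 0
  have ηy : η y = y := hom3_gn hs _ 1
  have ηz : η z = 1 := hom3_gn hs _ 2
  set a := eng n t y with ha
  set b := eng n t z with hb
  have σa : σ a = t * a * t⁻¹ := by rw [ha, map_eng, σt, σy, eng_conj]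
  have σb : σ b = b := by rw [hb, map_eng, σt, σz]
  have εa : ε a = 1 := by rw [ha, map_eng, εt, εy, eng_one]
  have εb : ε b = b := by rw [hb, map_eng, εt, εz]
  have ηa : η a = a := by rw [ha, map_eng, ηt, ηy]
  have ηb : η b = 1 := by rw [hb, map_eng, ηt, ηz, eng_one]
  let S : Set (F3 L) := {t, a, b}
  have tS : t ∈ Subgroup.closure S := Subgroup.subset_closure (by simp [S])
  have aS : a ∈ Subgroup.closure S := Subgroup.subset_closure (by simp [S])
  have bS : b ∈ Subgroup.closure S := Subgroup.subset_closure (by simp [S])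
  have hσ : ∀ w ∈ S, σ w ∈ Subgroup.closure S := by
    rintro w (rfl | rfl | rfl)
    · rw [σt]; exact tS
    · rw [σa]; exact mul_mem (mul_mem tS aS) (inv_mem tS)
    · rw [σb]; exact bS
  have hε : ∀ w ∈ S, ε w ∈ Subgroup.closure S := by
    rintro w (rfl | rfl | rfl)
    · rw [εt]; exact tS
    · rw [εa]; exact one_mem _
    · rw [εb]; exact bS
  have hη : ∀ w ∈ S, η w ∈ Subgroup.closure S := by
    rintro w (rfl | rfl | rfl)
    · rw [ηt]; exact tS
    · rw [ηa]; exact aS
    · rw [ηb]; exact one_mem _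
  let T : Sys (Subgroup.closure S) :=
    { t := ⟨t, tS⟩
      x := ⟨a, aS⟩
      y := ⟨b, bS⟩
      σ := resHom S σ hσ
      ε := resHom S ε hε
      η := resHom S η hη
      gen := by
        apply Subgroup.map_injective (Subgroup.closure S).subtype_injective
        rw [MonoidHom.map_closure, ← MonoidHom.range_eq_map, Subgroup.range_subtype]
        congr 1
        ext w
        simp only [Set.mem_image, Set.mem_insert_iff, Set.mem_singleton_iff, S]
        constructor
        · rintro ⟨u, (rfl | rfl | rfl), rfl⟩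
          · exact Or.inl rfl
          · exact Or.inr (Or.inl rfl)
          · exact Or.inr (Or.inr rfl)
        · rintro (rfl | rfl | rfl)
          · exact ⟨⟨_, tS⟩, Or.inl rfl, rfl⟩
          · exact ⟨⟨_, aS⟩, Or.inr (Or.inl rfl), rfl⟩
          · exact ⟨⟨_, bS⟩, Or.inr (Or.inr rfl), rfl⟩
      σt := Subtype.ext σt
      σx := Subtype.ext σa
      σy := Subtype.ext σb
      εt := Subtype.ext εt
      εx := Subtype.ext εa
      εy := Subtype.ext εb
      ηt := Subtype.ext ηt
      ηx := Subtype.ext ηa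
      ηy := Subtype.ext ηb }
  have haQ : a ∈ Q := eng_mem_lcs hK htK (by omega) y
  have hbQ : b ∈ Q := eng_mem_lcs hK htK (by omega) z
  have hPQ : T.P.map (Subgroup.closure S).subtype ≤ Q := by
    rw [Subgroup.map_le_iff_le_comap]
    have : (Q.comap (Subgroup.closure S).subtype).Normal := inferInstance
    refine Subgroup.normalClosure_le_normal ?_
    rintro w (rfl | rfl)
    · exact haQ
    · exact hbQ
  have hPk : T.P.lowerCentralSeries k = ⊥ := by
    apply (Subgroup.map_eq_bot_iff_of_injective _ (Subgroup.closure S).subtype_injective).1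
    rw [Subgroup.map_lowerCentralSeries, eq_bot_iff, ← hQ]
    exact Subgroup.lowerCentralSeries_mono k hPQ
  have h1 := hN n (by omega) (Subgroup.closure S) (hs.subgroup _) T hPk
  have h2 := congrArg (Subtype.val : Subgroup.closure S → F3 L) h1
  rw [coe_rounds σ T.σ (fun z => rfl)] at h2
  rw [hnat (F3 L) σ t y z σt σz σy n]
  exact h2

/-- If none of the groups `X p`, `S p q` satisfies the laws then some `L_n` is a law. -/
theorem pos (halg : Stmt_ALG) (hnat : Stmt_NAT) (hhom : Stmt_HOM.{u}) (L : Set (FreeGroup ℕ))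
    (d : ℕ) (hd : ∀ (G : Type u) [Group G], Sat L G → derivedSeries G d = ⊥)
    (hX : ∀ p : ℕ, p.Prime → ¬ Sat L (X p))
    (hS : ∀ p q : ℕ, p.Prime → q.Prime → p ≠ q → ¬ Sat L (S p q)) :
    ∃ n : ℕ, 1 ≤ n ∧ ∀ (G : Type u) [Group G], Sat L G → ∀ t y z : G, lawL n t y z = 1 := by
  have hs := sat_F3 L
  have hd0 : derivedSeries (F3 L) d = ⊥ :=
    derived_bot_transfer MulEquiv.ulift d
      (hd (ULift.{u} (F3 L)) (sat_transfer MulEquiv.ulift.symm hs))
  have hV : VMN (F3 L) := vmn_of hX hS (F3 L) (fg_quotient' inferInstance _) hs ⟨⟨d, hd0⟩⟩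
  obtain ⟨l, hl, hW⟩ := LI.lia (Wid L) (fun k _ f hf => phi_mem_Wid k hf)
    (fun p hp => by
      have : Fact p.Prime := ⟨hp⟩
      exact exists_ev_ne_zero p (hX p hp))
  obtain ⟨n, hn, h⟩ := law_F3 halg hnat hl hW hV
  refine ⟨n, hn, fun G _ hG t y z => ?_⟩
  have h1 := hhom (F3 L) G (hom3 hG ![t, y, z]) (gn L 0) (gn L 1) (gn L 2) n
  rw [h, map_one, hom3_gn, hom3_gn, hom3_gn] at h1
  exact h1.symm

end Pool.Agent.FGRL
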