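import Pool.Agent.FGRL.StA

/-!
# The laws `L_n` commute with homomorphisms (project FGL, module HOM)
-/

set_option autoImplicit false

namespace Pool.Agent.FGRL

open Pool.Agent.FGRF
open scoped commutatorElement

universe u

namespace HOMaux

variable {G : Type} [Group G] {H : Type u} [Group H] (φ : G →* H)

lemma eng_hom (n : ℕ) (t y : G) : φ (eng n t y) = eng n (φ t) (φ y) := by
  have h : Function.Semiconj φ (fun z => ⁅t ^ n, z⁆) (fun z => ⁅φ t ^ n, z⁆) := by
    intro z
    rw [map_commutatorElement, map_pow]
  exact (h.iterate_right n) y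

lemma dop_hom {w : G → G} {w' : H → H} (h : Function.Semiconj φ w w') (t : G) (x : ℕ × ℤ) :
    Function.Semiconj φ (dop t x w) (dop (φ t) x w') := by
  intro y
  unfold dop
  have h1 := h (t ^ x.1 * y * (t ^ x.1)⁻¹)
  have h2 := h y
  simp only [map_mul, map_inv, map_pow, map_zpow] at h1 ⊢
  rw [h1, h2]

lemma foldr_hom {w : G → G} {w' : H → H} (h : Function.Semiconj φ w w') (t : G)
    (l : List (ℕ × ℤ)) :
    Function.Semiconj φ (l.foldr (dop t) w) (l.foldr (dop (φ t)) w') := by
  induction l with
  | nil => exact h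
  | cons x l ih => exact dop_hom φ ih t x

lemma iter_hom {w : G → G} {w' : H → H} (h : Function.Semiconj φ w w') (t : G)
    (l : List (ℕ × ℤ)) (m : ℕ) :
    Function.Semiconj φ ((fun w => l.foldr (dop t) w)^[m] w)
      ((fun w => l.foldr (dop (φ t)) w)^[m] w') := by
  induction m with
  | zero => exact h
  | succ m ih =>
    rw [Function.iterate_succ_apply', Function.iterate_succ_apply']
    exact foldr_hom φ ih t l

end HOMaux

theorem t_HOM : Stmt_HOM.{u} := by
  intro G _ H _ φ t y z n
  have h : Function.Semiconj φ (fun y => ⁅eng n t y, eng n t z⁆)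
      (fun y => ⁅eng n (φ t) y, eng n (φ t) (φ z)⁆) := by
    intro v
    simp only [map_commutatorElement, HOMaux.eng_hom]
  exact HOMaux.iter_hom φ h t (pairsL n) n y

end Pool.Agent.FGRL
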