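import Pool.Agent.FGRL.StA

/-!
# Module INV: the general reason why a word `L_n` is not a law
-/

set_option autoImplicit false

namespace Pool.Agent.FGRL

open Pool.Agent.FGRF
open scoped commutatorElement

namespace INVaux

variable {G : Type} [Group G]

/-- the values of `w` at the conjugates of `y₀` vanish up to `i₀`, where the value is not `1` -/
def Inv (t y₀ : G) (w : G → G) (i₀ : ℤ) : Prop :=
  (∀ i : ℤ, i < i₀ → w (t ^ i * y₀ * (t ^ i)⁻¹) = 1) ∧ w (t ^ i₀ * y₀ * (t ^ i₀)⁻¹) ≠ 1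

theorem conj_shift (t y₀ : G) (a : ℕ) (i : ℤ) :
    t ^ a * (t ^ i * y₀ * (t ^ i)⁻¹) * (t ^ a)⁻¹ =
      t ^ (i + a) * y₀ * (t ^ (i + a))⁻¹ := by
  have h1 : t ^ (i + a) = t ^ a * t ^ i := by
    rw [add_comm, zpow_add, zpow_natCast]
  rw [h1, mul_inv_rev]
  group

theorem step {t y₀ : G} {w : G → G} {i₀ : ℤ} (h : Inv t y₀ w i₀) {x : ℕ × ℤ} (hx : 1 ≤ x.1) :
    Inv t y₀ (dop t x w) (i₀ - x.1) := by
  have hx' : (1 : ℤ) ≤ x.1 := by exact_mod_cast hx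
  refine ⟨fun i hi => ?_, ?_⟩
  · unfold dop
    rw [conj_shift, h.1 _ (by omega), h.1 _ (by omega)]
    simp
  · unfold dop
    rw [conj_shift, h.1 (i₀ - x.1) (by omega), sub_add_cancel]
    intro hc
    apply h.2
    rw [inv_one, mul_one] at hc
    have h2 := mul_inv_eq_one.1 hc
    exact mul_eq_left.1 h2

theorem list {t y₀ : G} (l : List (ℕ × ℤ)) (hl : ∀ x ∈ l, 1 ≤ x.1) {w : G → G} {i₀ : ℤ}
    (h : Inv t y₀ w i₀) : ∃ i₁, Inv t y₀ (l.foldr (dop t) w) i₁ := by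
  induction l with
  | nil => exact ⟨i₀, h⟩
  | cons x l ih =>
    obtain ⟨i₁, h1⟩ := ih (fun y hy => hl y (List.mem_cons_of_mem _ hy))
    exact ⟨_, step h1 (hl x (List.mem_cons_self ..))⟩

theorem iter {t y₀ : G} (n m : ℕ) {w : G → G} {i₀ : ℤ} (h : Inv t y₀ w i₀) :
    ∃ i₁, Inv t y₀ ((fun w => (pairsL n).foldr (dop t) w)^[m] w) i₁ := by
  induction m with
  | zero => exact ⟨i₀, h⟩
  | succ m ih =>
    obtain ⟨i₁, h1⟩ := ih
    rw [Function.iterate_succ_apply']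
    refine list (pairsL n) ?_ h1
    intro x hx
    simp only [pairsL, List.mem_flatMap, List.mem_map] at hx
    obtain ⟨a, -, b, -, rfl⟩ := hx
    exact Nat.le_add_left 1 a

end INVaux

open INVaux in
theorem t_INV : Stmt_INV := by
  intro G _ t y₀ z n i₀ h1 h2
  obtain ⟨i₁, h3⟩ := iter (t := t) (y₀ := y₀) n n
    (w := fun y => ⁅eng n t y, eng n t z⁆) (i₀ := i₀) ⟨h1, h2⟩
  exact ⟨_, h3.2⟩

end Pool.Agent.FGRL
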