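import Pool.Agent.FGRL.StA

/-!
# FGL_NAT: the value of `L_n` through an endomorphism
-/

set_option autoImplicit false

namespace Pool.Agent.FGRL

open Pool.Agent.FGRF
open scoped commutatorElement

namespace NATaux

variable {G : Type} [Group G]

/-- natural functions -/
def Natl (σ : G →* G) (w : G → G) : Prop := ∀ v, w (σ v) = σ (w v)

theorem dop_nat {σ : G →* G} {t : G} (ht : σ t = t) (x : ℕ × ℤ) {w : G → G} (hw : Natl σ w) :
    Natl σ (dop t x w) := by
  intro v
  unfold dop
  simp only [map_mul, map_inv, map_zpow, map_pow, ht, ← hw _]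

theorem foldr_nat {σ : G →* G} {t : G} (ht : σ t = t) (l : List (ℕ × ℤ)) {w : G → G}
    (hw : Natl σ w) : Natl σ (l.foldr (dop t) w) := by
  induction l with
  | nil => exact hw
  | cons x l ih => exact dop_nat ht x ih

theorem iter_nat {σ : G →* G} {t : G} (ht : σ t = t) (l : List (ℕ × ℤ)) {w : G → G}
    (hw : Natl σ w) (m : ℕ) : Natl σ ((fun w => l.foldr (dop t) w)^[m] w) := by
  induction m with
  | zero => exact hw
  | succ m ih =>
    rw [Function.iterate_succ_apply']
    exact foldr_nat ht l ih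

theorem iter_conj {σ : G →* G} {t y : G} (ht : σ t = t) (hy : σ y = t * y * t⁻¹) (a : ℕ) :
    (σ : G → G)^[a] y = t ^ a * y * (t ^ a)⁻¹ := by
  induction a with
  | zero => simp
  | succ a ih =>
    rw [Function.iterate_succ_apply', ih, map_mul, map_mul, map_inv, map_pow, ht, hy, pow_succ]
    group

theorem iter_w {σ : G →* G} {w : G → G} (hw : Natl σ w) (a : ℕ) (y : G) :
    (σ : G → G)^[a] (w y) = w ((σ : G → G)^[a] y) := by
  induction a with
  | zero => rfl
  | succ a ih => rw [Function.iterate_succ_apply', ih, Function.iterate_succ_apply', hw]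

theorem dop_eq {σ : G →* G} {t y : G} (ht : σ t = t) (hy : σ y = t * y * t⁻¹) (x : ℕ × ℤ)
    {w : G → G} (hw : Natl σ w) : dop t x w y = dsg σ t x (w y) := by
  unfold dop dsg
  rw [iter_w hw, iter_conj ht hy]

theorem foldr_eq {σ : G →* G} {t y : G} (ht : σ t = t) (hy : σ y = t * y * t⁻¹)
    (l : List (ℕ × ℤ)) {w : G → G} (hw : Natl σ w) :
    l.foldr (dop t) w y = l.foldr (dsg σ t) (w y) := by
  induction l with
  | nil => rfl
  | cons x l ih =>
    rw [List.foldr_cons, List.foldr_cons, dop_eq ht hy x (foldr_nat ht l hw), ih]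

theorem iter_eq {σ : G →* G} {t y : G} (ht : σ t = t) (hy : σ y = t * y * t⁻¹)
    (l : List (ℕ × ℤ)) {w : G → G} (hw : Natl σ w) (m : ℕ) :
    ((fun w => l.foldr (dop t) w)^[m] w) y = (fun g => l.foldr (dsg σ t) g)^[m] (w y) := by
  induction m with
  | zero => rfl
  | succ m ih =>
    rw [Function.iterate_succ_apply', Function.iterate_succ_apply', ← ih]
    exact foldr_eq ht hy l (iter_nat ht l hw m)

theorem eng_nat {σ : G →* G} {t : G} (ht : σ t = t) (n : ℕ) (v : G) :
    σ (eng n t v) = eng n t (σ v) := by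
  unfold eng
  have key : ∀ m : ℕ, σ ((fun z => ⁅t ^ n, z⁆)^[m] v) = (fun z => ⁅t ^ n, z⁆)^[m] (σ v) := by
    intro m
    induction m with
    | zero => rfl
    | succ m ih =>
      rw [Function.iterate_succ_apply', Function.iterate_succ_apply', ← ih]
      show σ ⁅t ^ n, _⁆ = _
      rw [map_commutatorElement, map_pow, ht]
  exact key _

end NATaux

open NATaux

theorem t_NAT : Stmt_NAT := by
  intro G _ σ t y z ht hz hy n
  unfold lawL
  refine iter_eq ht hy (pairsL n) (w := fun y => ⁅eng n t y, eng n t z⁆) ?_ n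
  intro v
  show ⁅eng n t (σ v), eng n t z⁆ = σ ⁅eng n t v, eng n t z⁆
  rw [map_commutatorElement, eng_nat ht, eng_nat ht, hz]

end Pool.Agent.FGRL
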