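import Pool.Agent.FGRL.StB

/-!
# SNEG: `L_n` is not a law of `S p q`
-/

set_option autoImplicit false

namespace Pool.Agent.FGRL

open Pool.Agent.FGRF
open scoped commutatorElement

theorem t_SNEG : Stmt_SNEG := by
  intro hW hI p q hp hq n hn
  have : Fact p.Prime := ⟨hp⟩
  have : Fact q.Prime := ⟨hq⟩
  refine hW hI ((Multiplicative (ZMod q)) ≀ᵣ (Multiplicative (ZMod p)))
    ⟨S.tp q (1 : ZMod p), S.bt (Pi.single 0 1 : ZMod p → ZMod q), fun hcomm => ?_⟩ n hn
  have h1 : ⁅S.tp q (1 : ZMod p), S.bt (Pi.single 0 1 : ZMod p → ZMod q)⁆ = 1 := by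
    rw [commutatorElement_def, hcomm]
    group
  rw [S.comm_tp_bt] at h1
  have h0 : (1 : (Multiplicative (ZMod q)) ≀ᵣ (Multiplicative (ZMod p))) =
      S.bt (0 : ZMod p → ZMod q) := rfl
  rw [h0] at h1
  have h2 : dd 1 (Pi.single 0 1 : ZMod p → ZMod q) = 0 := S.bt_injective h1
  have h3 := congrFun h2 0
  simp only [dd, zero_sub, Pi.single_eq_same, Pi.zero_apply] at h3
  rw [Pi.single_eq_of_ne (neg_ne_zero.2 one_ne_zero), zero_sub, neg_eq_zero] at h3
  exact one_ne_zero h3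

end Pool.Agent.FGRL
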