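import Mathlib
import Pool.Agent.FGRL.Defs
import Pool.Agent.Lib_helper35.FGRF.Transfer

/-!
# Three-generator groups suffice
-/

set_option autoImplicit false

namespace Pool.Agent.FGRL

open Pool.Agent.FGRF

universe u

/-- the subgroup generated by three elements is generated by three elements -/
theorem closure_three {K : Type*} [Group K] (t a b : K) :
    ∃ t' a' b' : Subgroup.closure ({t, a, b} : Set K),
      (t' : K) = t ∧ (a' : K) = a ∧ (b' : K) = b ∧
      Subgroup.closure ({t', a', b'} : Set (Subgroup.closure ({t, a, b} : Set K))) = ⊤ := by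
  have tS : t ∈ Subgroup.closure ({t, a, b} : Set K) := Subgroup.subset_closure (by simp)
  have aS : a ∈ Subgroup.closure ({t, a, b} : Set K) := Subgroup.subset_closure (by simp)
  have bS : b ∈ Subgroup.closure ({t, a, b} : Set K) := Subgroup.subset_closure (by simp)
  refine ⟨⟨t, tS⟩, ⟨a, aS⟩, ⟨b, bS⟩, rfl, rfl, rfl, ?_⟩
  apply Subgroup.map_injective (Subgroup.closure ({t, a, b} : Set K)).subtype_injective
  rw [MonoidHom.map_closure, ← MonoidHom.range_eq_map, Subgroup.range_subtype]
  congr 1
  ext w
  simp only [Set.mem_image, Set.mem_insert_iff, Set.mem_singleton_iff]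
  constructor
  · rintro ⟨u, (rfl | rfl | rfl), rfl⟩
    · exact Or.inl rfl
    · exact Or.inr (Or.inl rfl)
    · exact Or.inr (Or.inr rfl)
  · rintro (rfl | rfl | rfl)
    · exact ⟨⟨_, tS⟩, Or.inl rfl, rfl⟩
    · exact ⟨⟨_, aS⟩, Or.inr (Or.inl rfl), rfl⟩
    · exact ⟨⟨_, bS⟩, Or.inr (Or.inr rfl), rfl⟩

theorem three_aux {L : Set (FreeGroup ℕ)}
    (h3 : ∀ (G : Type u) [Group G], Sat L G →
      (∃ a b c : G, Subgroup.closure {a, b, c} = ⊤) → Group.ResiduallyFinite G)
    {K : Type} [Group K] (hK : Sat L K) (t a b : K)
    (h : ∀ n : ℕ, 1 ≤ n → t ^ n * a * (t ^ n)⁻¹ * b = b * (t ^ n * a * (t ^ n)⁻¹)) :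
    a * b = b * a := by
  by_contra hab
  obtain ⟨t', a', b', ht, ha, hb, hgen⟩ := closure_three t a b
  let e : Subgroup.closure ({t, a, b} : Set K) ≃* ULift.{u} (Subgroup.closure ({t, a, b} : Set K)) :=
    MulEquiv.ulift.symm
  have h1 := h3 (ULift.{u} (Subgroup.closure ({t, a, b} : Set K)))
    (sat_transfer e (hK.subgroup _)) ⟨e t', e a', e b', by
      have h2 : (Subgroup.closure {t', a', b'}).map e.toMonoidHom =
          Subgroup.closure {e t', e a', e b'} := by
        rw [MonoidHom.map_closure]
        congr 1
        rw [Set.image_insert_eq, Set.image_insert_eq, Set.image_singleton]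
        rfl
      rw [← h2, hgen, ← MonoidHom.range_eq_map]
      exact MonoidHom.range_eq_top.2 e.surjective⟩
  refine not_residuallyFinite t' a' b' ?_ ?_ (rf_transfer e.symm h1)
  · intro n hn
    apply Subtype.ext
    push_cast
    rw [ht, ha, hb]
    exact h n hn
  · intro h4
    apply hab
    have h5 := congrArg (Subtype.val : Subgroup.closure ({t, a, b} : Set K) → K) h4
    push_cast at h5
    rw [ha, hb] at h5
    exact h5

theorem three {L : Set (FreeGroup ℕ)}
    (h3 : ∀ (G : Type u) [Group G], Sat L G →
      (∃ a b c : G, Subgroup.closure {a, b, c} = ⊤) → Group.ResiduallyFinite G) :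
    (∀ p : ℕ, p.Prime → ¬ Sat L (X p)) ∧
      (∀ p q : ℕ, p.Prime → q.Prime → p ≠ q → ¬ Sat L (S p q)) := by
  refine ⟨?_, ?_⟩
  · intro p hp hsat
    have h := three_aux h3 hsat (X.t : X p) (X.inD (Finsupp.single 0 1))
      (X.inB (Finsupp.single 0 1)) (by
        intro n hn
        have h1 := X.conj_inD (p := p) n (Finsupp.single 0 1)
        rw [zpow_natCast] at h1
        rw [h1, shift_single, zero_add]
        refine X.ext ?_ ?_ ?_ ?_
        · simp [X.inB, X.inD]
        · simp [X.inB, X.inD]
        · simp [X.inB, X.inD]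
        · simp only [X.inB, X.inD, X.mul_c, shift_zero, pair_zero_left, pair_single_left, one_mul]
          rw [Finsupp.single_apply, if_neg (by omega)])
    have h1 := congrArg X.c h
    simp only [X.inB, X.inD, X.mul_c, shift_zero, pair_zero_left, pair_single_left, one_mul,
      Finsupp.single_eq_same, add_zero, zero_add] at h1
    have : Nontrivial (ZMod p) := ZMod.nontrivial_iff.2 hp.ne_one
    exact zero_ne_one h1
  · intro p q hp hq _ hsat
    have h1 : Nontrivial (ZMod p) := ZMod.nontrivial_iff.2 hp.ne_one
    have h2 : Nontrivial (ZMod q) := ZMod.nontrivial_iff.2 hq.ne_one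
    have key : ∀ a b : (Multiplicative (ZMod q)) ≀ᵣ (Multiplicative (ZMod p)), a * b = b * a := by
      intro a b
      have h := three_aux h3 hsat (RWr.tt : S p q) (RWr.base 1 a) (RWr.base 1 b) (by
        intro n hn
        have h1 := RWr.conj_base (n : ℤ) a
        rw [zpow_natCast] at h1
        rw [h1]
        apply Subtype.ext
        rw [Subgroup.coe_mul, Subgroup.coe_mul]
        refine RegularWreathProduct.ext ?_ ?_
        · funext z
          simp only [RWr.base, RegularWreathProduct.mul_left, inv_one, one_mul, Pi.mul_apply]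
          by_cases hz : z = 1
          · subst hz
            rw [if_neg, one_mul, mul_one]
            intro h
            have h2 := congrArg Multiplicative.toAdd h
            simp only [toAdd_one, toAdd_ofAdd] at h2
            omega
          · rw [if_neg hz, one_mul, mul_one]
        · simp [RWr.base])
      rw [← RWr.base_mul, ← RWr.base_mul] at h
      have h1 := congrArg (fun x : S p q => x.1.left 1) h
      simp only [RWr.base, if_pos] at h1
      exact h1
    have h := key (⟨fun z => if z = 1 then Multiplicative.ofAdd 1 else 1, 1⟩)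
      (⟨1, Multiplicative.ofAdd 1⟩)
    have h3 := congrArg (fun x => x.left 1) h
    simp only [RegularWreathProduct.mul_left, one_mul, Pi.mul_apply, Pi.one_apply, mul_one,
      if_true] at h3
    rw [if_neg] at h3
    · have h4 := congrArg Multiplicative.toAdd h3
      simp only [toAdd_ofAdd, toAdd_one] at h4
      exact one_ne_zero h4
    · intro h5
      have h6 := congrArg Multiplicative.toAdd h5
      simp only [toAdd_inv, toAdd_ofAdd, toAdd_one, neg_eq_zero] at h6
      exact one_ne_zero h6

end Pool.Agent.FGRL
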