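import Pool.Agent.FGRL.StB

/-!
# Module WNEG: the laws `L_n` fail in restricted wreath products
-/

set_option autoImplicit false

namespace Pool.Agent.FGRL

open Pool.Agent.FGRF RegularWreathProduct
open scoped commutatorElement

namespace WNEGaux

variable {A : Type} [Group A]

/-- the component at the integer `i` -/
def lf (x : RWr A) (i : ℤ) : A := x.1.left (Multiplicative.ofAdd i)

structure Sup (x : RWr A) (lo hi : ℤ) (a b : A) : Prop where
  right : x.1.right = 1
  low : ∀ i, i < lo → lf x i = 1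
  high : ∀ i, hi < i → lf x i = 1
  atlo : lf x lo = a
  athi : lf x hi = b

theorem tcomm (n : ℕ) (x : RWr A) (hx : x.1.right = 1) :
    (⁅(RWr.tt : RWr A) ^ n, x⁆).1.right = 1 ∧
    ∀ i, lf ⁅(RWr.tt : RWr A) ^ n, x⁆ i = lf x (i - n) * (lf x i)⁻¹ := by
  have h1 : (⁅(RWr.tt : RWr A) ^ n, x⁆).1 = (RWr.tt ^ n : RWr A).1 * x.1 *
      ((RWr.tt ^ n : RWr A).1)⁻¹ * (x.1)⁻¹ := rfl
  constructor
  · rw [h1, RWr.tt_pow]
    simp [hx]
  · intro i
    unfold lf
    rw [h1, RWr.tt_pow]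
    simp only [mul_left, mul_right, inv_left, inv_right, Pi.mul_apply, Pi.inv_apply, Pi.one_apply,
      hx, one_mul, mul_one, inv_one, mul_inv_cancel]
    congr 2
    show Multiplicative.ofAdd (-(n : ℤ) + i) = _
    rw [neg_add_eq_sub]

theorem xcomm (x y : RWr A) (hx : x.1.right = 1) (hy : y.1.right = 1) :
    (⁅x, y⁆).1.right = 1 ∧ ∀ i, lf ⁅x, y⁆ i = ⁅lf x i, lf y i⁆ := by
  have h1 : (⁅x, y⁆).1 = x.1 * y.1 * (x.1)⁻¹ * (y.1)⁻¹ := rfl
  constructor
  · rw [h1]; simp [hx, hy]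
  · intro i
    unfold lf
    rw [h1, commutatorElement_def]
    simp only [mul_left, mul_right, inv_left, inv_right, Pi.mul_apply, Pi.inv_apply, hx, hy,
      one_mul, mul_one, inv_one]

theorem Sup.step {x : RWr A} {lo hi : ℤ} {a b : A} (h : Sup x lo hi a b) (_hl : lo ≤ hi) {n : ℕ}
    (hn : 1 ≤ n) : Sup ⁅(RWr.tt : RWr A) ^ n, x⁆ lo (hi + n) a⁻¹ b := by
  obtain ⟨h1, h2⟩ := tcomm n x h.right
  have hn' : (1 : ℤ) ≤ n := by exact_mod_cast hn
  refine ⟨h1, fun i hi' => ?_, fun i hi' => ?_, ?_, ?_⟩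
  · rw [h2, h.low i hi', h.low _ (by omega)]; simp
  · rw [h2, h.high i (by omega), h.high _ (by omega)]; simp
  · rw [h2, h.low _ (by omega), h.atlo, one_mul]
  · rw [h2, h.high (hi + n) (by omega), add_sub_cancel_right, h.athi]; simp

theorem Sup.iter {x : RWr A} {lo hi : ℤ} {a b : A} (h : Sup x lo hi a b) (hl : lo ≤ hi) {n : ℕ}
    (hn : 1 ≤ n) (m : ℕ) : ∃ a', (a' = a ∨ a' = a⁻¹) ∧
      Sup ((fun z => ⁅(RWr.tt : RWr A) ^ n, z⁆)^[m] x) lo (hi + m * n) a' b := by
  induction m with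
  | zero => exact ⟨a, Or.inl rfl, by simpa using h⟩
  | succ m ih =>
    obtain ⟨a', ha, hs⟩ := ih
    have h1 : (0 : ℤ) ≤ m * n := by positivity
    have h2 := hs.step (by omega) hn
    refine ⟨a'⁻¹, ?_, ?_⟩
    · rcases ha with rfl | rfl
      · exact Or.inr rfl
      · exact Or.inl (inv_inv _)
    · rw [Function.iterate_succ_apply']
      have h3 : hi + ((m + 1 : ℕ) : ℤ) * n = hi + m * n + n := by push_cast; ring
      rw [h3]
      exact h2

theorem Sup_base (i : ℤ) (g : A) : Sup (RWr.base (Multiplicative.ofAdd i) g) i i g g := by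
  have h : ∀ j : ℤ, lf (RWr.base (Multiplicative.ofAdd i) g) j = if j = i then g else 1 := by
    intro j
    unfold lf RWr.base
    by_cases hj : j = i
    · subst hj; simp
    · have : Multiplicative.ofAdd j ≠ Multiplicative.ofAdd i := fun h => hj (by simpa using h)
      simp [hj]
  refine ⟨rfl, fun j hj => ?_, fun j hj => ?_, ?_, ?_⟩
  · rw [h, if_neg (by omega)]
  · rw [h, if_neg (by omega)]
  · rw [h, if_pos rfl]
  · rw [h, if_pos rfl]

end WNEGaux

open WNEGaux in
theorem t_WNEG : Stmt_WNEG := by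
  intro hINV A _ hA n hn
  obtain ⟨g, h, hgh⟩ := hA
  have hz : RWr.base 1 h = RWr.base (Multiplicative.ofAdd (0 : ℤ)) h := rfl
  obtain ⟨h', hh', hS⟩ := (Sup_base (A := A) 0 h).iter le_rfl hn n
  have key := hINV (RWr A) RWr.tt (RWr.base 1 g) (RWr.base 1 h) n (-((n : ℤ) * n)) ?_ ?_
  · obtain ⟨y, hy⟩ := key
    exact ⟨_, y, _, hy⟩
  · intro i hi
    rw [RWr.conj_base, hz]
    obtain ⟨g', -, hT⟩ := (Sup_base (A := A) i g).iter le_rfl hn n
    obtain ⟨h1, h2⟩ := xcomm _ _ hT.right hS.right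
    apply Subtype.ext
    refine RegularWreathProduct.ext ?_ h1
    funext z
    have h3 := h2 z.toAdd
    show lf _ z.toAdd = 1
    unfold eng
    rw [h3]
    by_cases hz0 : z.toAdd < 0
    · rw [hS.low _ hz0, commutatorElement_one_right]
    · rw [hT.high _ (by omega), commutatorElement_one_left]
  · intro hc
    rw [RWr.conj_base, hz] at hc
    obtain ⟨g', -, hT⟩ := (Sup_base (A := A) (-((n : ℤ) * n)) g).iter le_rfl hn n
    obtain ⟨h1, h2⟩ := xcomm _ _ hT.right hS.right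
    have h3 := h2 0
    have h4 := hT.athi
    rw [neg_add_cancel] at h4
    rw [h4, hS.atlo] at h3
    unfold eng at hc
    rw [hc] at h3
    have h5 : ⁅g, h'⁆ = 1 := by
      rw [← h3]; rfl
    rw [commutatorElement_eq_one_iff_mul_comm] at h5
    rcases hh' with rfl | rfl
    · exact hgh h5
    · apply hgh
      have h6 : Commute g h⁻¹ := h5
      exact (Commute.inv_right_iff.1 h6).eq

end Pool.Agent.FGRL
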