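import Pool.Agent.FGRL.StB

/-!
# Module XNEG: the laws `L_n` fail in the groups `X p`
-/

set_option autoImplicit false

namespace Pool.Agent.FGRL

open Pool.Agent.FGRF
open scoped commutatorElement

namespace XNEGaux

variable {p : ℕ}

theorem pair_del (k : ℤ) (b a : ℤ →₀ ZMod p) : pair (del k b) a = pair b (del (-k) a) := by
  have h1 : pair (shift k b) a = pair b (shift (-k) a) := by
    rw [← pair_shift (-k) (shift k b) a, shift_shift]
    simp
  rw [del, del, sub_eq_add_neg, sub_eq_add_neg, pair_add_left, pair_add_right, pair_neg_left,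
    pair_neg_right, h1]

theorem pair_iter (k : ℤ) (m : ℕ) : ∀ b a : ℤ →₀ ZMod p,
    pair ((del k)^[m] b) a = pair b ((del (-k))^[m] a) := by
  induction m with
  | zero => intro b a; rfl
  | succ m ih =>
    intro b a
    rw [Function.iterate_succ_apply', pair_del, ih, Function.iterate_succ_apply]

theorem iterB (n m : ℕ) (b : ℤ →₀ ZMod p) :
    (fun z : X p => ⁅(X.t : X p) ^ n, z⁆)^[m] (X.inB b) = X.inB ((del (n : ℤ))^[m] b) := by
  induction m with
  | zero => rfl
  | succ m ih =>
    rw [Function.iterate_succ_apply', Function.iterate_succ_apply', ih, ← zpow_natCast,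
      X.comm_t_inB]

theorem iterD (n m : ℕ) (b : ℤ →₀ ZMod p) :
    (fun z : X p => ⁅(X.t : X p) ^ n, z⁆)^[m] (X.inD b) = X.inD ((del (n : ℤ))^[m] b) := by
  induction m with
  | zero => rfl
  | succ m ih =>
    rw [Function.iterate_succ_apply', Function.iterate_succ_apply', ih, ← zpow_natCast,
      X.comm_t_inD]

end XNEGaux

open XNEGaux in
theorem t_XNEG : Stmt_XNEG := by
  intro hINV p hp n hn
  have : Fact p.Prime := ⟨hp⟩
  let a₀ : ℤ →₀ ZMod p := Finsupp.single 0 1
  have ha₀ : a₀ ≠ 0 := by simp [a₀]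
  let e : ℤ →₀ ZMod p := (del (-(n : ℤ)))^[n] ((del (n : ℤ))^[n] a₀)
  have he : e ≠ 0 := del_iterate_ne_zero (by omega) (del_iterate_ne_zero (by omega) ha₀ n) n
  have hcomm : ∀ i : ℤ, ⁅eng n (X.t : X p) (X.t ^ i * X.inB a₀ * (X.t ^ i)⁻¹),
      eng n (X.t : X p) (X.inD a₀)⁆ = X.inC (e i) := by
    intro i
    unfold eng
    rw [X.conj_inB, iterB, iterD, X.comm_inB_inD, pair_iter, shift_single, zero_add,
      pair_single_left, one_mul]
  have hne : e.support.Nonempty := Finsupp.support_nonempty_iff.2 he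
  have key := hINV (X p) X.t (X.inB a₀) (X.inD a₀) n (e.support.min' hne) ?_ ?_
  · obtain ⟨y, hy⟩ := key
    exact ⟨_, y, _, hy⟩
  · intro i hi
    rw [hcomm]
    have h0 : e i = 0 := by
      by_contra h
      exact absurd (Finset.min'_le _ _ (Finsupp.mem_support_iff.2 h)) (not_le.2 hi)
    rw [h0]
    rfl
  · rw [hcomm]
    intro h
    exact (Finsupp.mem_support_iff.1 (Finset.min'_mem _ hne)) (congrArg X.c h)

end Pool.Agent.FGRL
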