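import Mathlib
import Pool.Agent.FGRL.Free
import Pool.Agent.FGRL.Three
import Pool.Agent.FGRL.ALG
import Pool.Agent.FGRL.HOM
import Pool.Agent.FGRL.INV
import Pool.Agent.FGRL.NAT
import Pool.Agent.FGRL.SNEG
import Pool.Agent.FGRL.WNEG
import Pool.Agent.FGRL.XNEG

/-!
# The laws `L_n` and the groups `X p`, `S p q`
-/

set_option autoImplicit false

namespace Pool.Agent.FGRL

open Pool.Agent.FGRF

universe u

variable {L : Set (FreeGroup ℕ)}

/-- `L_n` in a group of `Type` and in its lift to `Type u` -/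
theorem lawL_of_ulift {K : Type} [Group K] {n : ℕ} (t y z : K)
    (h : ∀ t y z : ULift.{u} K, lawL n t y z = 1) : lawL n t y z = 1 := by
  have h1 := t_HOM.{u} K (ULift.{u} K) (MulEquiv.ulift.symm : K ≃* ULift.{u} K).toMonoidHom t y z n
  rw [h] at h1
  exact (MulEquiv.ulift.symm : K ≃* ULift.{u} K).injective (h1.trans (map_one _).symm)

theorem laws_L_neg (h : ∃ n : ℕ, 1 ≤ n ∧ ∀ (G : Type u) [Group G], Sat L G →
    ∀ t y z : G, lawL n t y z = 1) :
    (∀ p : ℕ, p.Prime → ¬ Sat L (X p)) ∧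
      (∀ p q : ℕ, p.Prime → q.Prime → p ≠ q → ¬ Sat L (S p q)) := by
  obtain ⟨n, hn, h⟩ := h
  refine ⟨?_, ?_⟩
  · intro p hp hsat
    obtain ⟨t, y, z, hne⟩ := t_XNEG t_INV p hp n hn
    exact hne (lawL_of_ulift t y z
      (h (ULift.{u} (X p)) (sat_transfer MulEquiv.ulift.symm hsat)))
  · intro p q hp hq _ hsat
    obtain ⟨t, y, z, hne⟩ := t_SNEG t_WNEG t_INV p q hp hq n hn
    exact hne (lawL_of_ulift t y z
      (h (ULift.{u} (S p q)) (sat_transfer MulEquiv.ulift.symm hsat)))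

theorem laws_L (L : Set (FreeGroup ℕ)) (d : ℕ)
    (hd : ∀ (G : Type u) [Group G], Sat L G → derivedSeries G d = ⊥)
    (hX : ∀ p : ℕ, p.Prime → ¬ Sat L (X p))
    (hS : ∀ p q : ℕ, p.Prime → q.Prime → p ≠ q → ¬ Sat L (S p q)) :
    ∃ n : ℕ, 1 ≤ n ∧ ∀ (G : Type u) [Group G], Sat L G → ∀ t y z : G, lawL n t y z = 1 :=
  pos t_ALG t_NAT t_HOM.{u} L d hd hX hS

end Pool.Agent.FGRL
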