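import Mathlib
import Pool.Agent.FGRL.StA
import Pool.Agent.Lib_helper46.FGRF.LawGroups

/-!
# Module statements for the laws `L_n`
-/

set_option autoImplicit false

namespace Pool.Agent.FGRL

open Pool.Agent.FGRF
open scoped commutatorElement

universe u v

/-- `L_n` is not a law of `X p`.

Proof. `t = X.t`, `y₀ = X.inB (Finsupp.single 0 1)`, `z = X.inD (Finsupp.single 0 1)`. By
`X.conj_inB` `t ^ i * y₀ * (t ^ i)⁻¹ = X.inB (single i 1)` and by `X.comm_t_inB`, `X.comm_t_inD`
(see the end of the proof of `X_not_lawA` in `Pool.Agent.Lib_helper46.FGRF.LawGroups`)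
`eng n t (X.inB b) = X.inB ((del n)^[n] b)` and the same for `X.inD`. By `X.comm_inB_inD` the
commutator is `X.inC (pair ((del n)^[n] (single i 1)) ((del n)^[n] (single 0 1)))`. As in
`pair_del_left` one has `pair (del k b) a = pair b (del (-k) a)`, so the number is
`pair (single i 1) e = e i` with `e := (del (-n))^[n] ((del n)^[n] (single 0 1))`, which is not zero
(`del_iterate_ne_zero`, `1 ≤ n`). Let `i₀` be the least element of the support of `e`
(`Finset.min'`) and apply `Stmt_INV`. (`X.inC c = 1 ↔ c = 0`: look at the component `c`.) -/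
def Stmt_XNEG : Prop := Stmt_INV → ∀ (p : ℕ), p.Prime → ∀ n : ℕ, 1 ≤ n →
  ∃ t y z : X p, lawL n t y z ≠ 1

/-- `L_n` is not a law of the restricted wreath product `RWr A` if `A` is not abelian.

Proof. Let `g h : A` with `g * h ≠ h * g`, `t = RWr.tt`, `y₀ = RWr.base 1 g`, `z = RWr.base 1 h`
(`Pool.Agent.Lib_helper46.FGRF.GroupS`; coordinates are `Multiplicative ℤ`, below I write them
as integers; `RWr.tt_zpow`, `RWr.conj_base`). Say that `Sup x lo hi a b` holds for `x : RWr A`
if `x.1.right = 1`, `x.1.left i = 1` for `i < lo` and for `i > hi`, `x.1.left lo = a` and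
`x.1.left hi = b` (all `i : ℤ` through `Multiplicative.ofAdd i`). If `lo ≤ hi`, `1 ≤ n` and
`Sup x lo hi a b` then `⁅t ^ n, x⁆ = t ^ n * x * (t ^ n)⁻¹ * x⁻¹` satisfies
`Sup _ lo (hi + n) a⁻¹ b`, because its left component at `i` is
`x.1.left (i - n) * (x.1.left i)⁻¹`. By induction on `m`: `(fun z => ⁅t ^ n, z⁆)^[m] x` satisfies
`Sup _ lo (hi + m * n) a' b` with `a' = a` or `a' = a⁻¹`. So, with `y = t ^ i * y₀ * (t ^ i)⁻¹
= RWr.base i g`, `eng n t y` satisfies `Sup _ i (i + n * n) _ g` and `eng n t z` satisfies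
`Sup _ 0 (n * n) h' _` with `h' = h` or `h' = h⁻¹`. The commutator of two elements with trivial
right components has left component the pointwise commutator. If `i + n * n < 0` the supports are
disjoint and the commutator is `1`. If `i = -(n * n)` its left component at `0` is `⁅g, h'⁆ ≠ 1`.
Apply `Stmt_INV` with `i₀ = -(n * n)`. -/
def Stmt_WNEG : Prop := Stmt_INV → ∀ (A : Type) [Group A], (∃ g h : A, g * h ≠ h * g) →
  ∀ n : ℕ, 1 ≤ n → ∃ t y z : RWr A, lawL n t y z ≠ 1

/-- `L_n` is not a law of `S p q`.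

Proof. `S p q = RWr A` with `A = (Multiplicative (ZMod q)) ≀ᵣ (Multiplicative (ZMod p))`; apply
`Stmt_WNEG` with `g = S.tp q 1`, `h = S.bt (Pi.single 0 1)`
(`Pool.Agent.Lib_helper46.FGRF.LawGroups`). If they commute then `⁅g, h⁆ = 1`, so
`S.bt (dd 1 (Pi.single 0 1)) = 1 = S.bt 0` by `S.comm_tp_bt`, so `dd 1 (Pi.single 0 1) = 0` by
`S.bt_injective`; at `0` this says `0 - 1 = 0` in `ZMod q` (see the end of the proof of
`dd_iterate_ne_zero`). -/
def Stmt_SNEG : Prop := Stmt_WNEG → Stmt_INV → ∀ (p q : ℕ), p.Prime → q.Prime → ∀ n : ℕ, 1 ≤ n →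
  ∃ t y z : S p q, lawL n t y z ≠ 1

end Pool.Agent.FGRL
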