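import Mathlib
import Pool.Agent.FGRL.StA
import Pool.Agent.Lib_helper35.FGRF.Transfer

/-!
# Module statements for the laws `L_n`
-/

set_option autoImplicit false

namespace Pool.Agent.FGRL

open Pool.Agent.FGRF
open scoped commutatorElement

universe u v

/-- Three-generator groups suffice.

Proof. If `X p` satisfies `L` let `t, a, b` be the elements used in `X.not_rf`
(`Pool.Agent.Lib_helper46.FGRF.GroupX`), and let `H = Subgroup.closure {t, a, b}` in `X p`. `H`
satisfies `L` (`Sat.subgroup`) and is generated by three elements
(`Subgroup.closure_closure_coe_preimage` or `Subgroup.closure_preimage_eq_top`), so `ULift H` (use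
`MulEquiv.ulift`, `sat_transfer`, `rf_transfer` of `Pool.Agent.Lib_helper35.FGRF.Transfer`) is
residually finite, so `H` is, but this contradicts `not_residuallyFinite` applied in `H`. The same
for `S p q` (`S.not_rf` in `Pool.Agent.Lib_helper46.FGRF.GroupS`; see the elements used there). -/
def Stmt_THREE : Prop := ∀ (L : Set (FreeGroup ℕ)),
  (∀ (G : Type u) [Group G], Sat L G → (∃ a b c : G, Subgroup.closure {a, b, c} = ⊤) →
    Group.ResiduallyFinite G) →
  (∀ p : ℕ, p.Prime → ¬ Sat L (X p)) ∧ (∀ p q : ℕ, p.Prime → q.Prime → p ≠ q → ¬ Sat L (S p q))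

end Pool.Agent.FGRL
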